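import Mathlib

/-!
# Polynomial square roots, flags and nonsquare conditions
-/

set_option autoImplicit false

open Polynomial Module

namespace Pool.Agent.H16U

section sqrt

variable {κ : Type} [Field κ]

/-- the polynomial part of the square root of a monic polynomial of even degree -/
theorem sqrt_poly (h2 : (2 : κ) ≠ 0) (P : κ[X]) (hP : P.Monic) (M : ℕ)
    (hd : P.natDegree = 2 * M) :
    ∃ Q : κ[X], Q.Monic ∧ Q.natDegree = M ∧ (P - Q ^ 2).degree < (M : ℕ) := by
  have main : ∀ j ≤ M, ∃ Q : κ[X], Q.Monic ∧ Q.natDegree = M ∧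
      (P - Q ^ 2).degree < ((2 * M - j : ℕ) : WithBot ℕ) := by
    intro j
    induction j with
    | zero =>
      intro _
      refine ⟨X ^ M, monic_X_pow M, natDegree_X_pow M, ?_⟩
      have hm : ((X : κ[X]) ^ M) ^ 2 = X ^ (2 * M) := by rw [← pow_mul, mul_comm]
      have hPd : P.degree = ((2 * M : ℕ) : WithBot ℕ) := by
        rw [degree_eq_natDegree hP.ne_zero, hd]
      have h1 := degree_sub_lt_left (p := P) (q := X ^ (2 * M)) (by rw [hPd, degree_X_pow])
        hP.ne_zero (by rw [hP.leadingCoeff, (monic_X_pow _).leadingCoeff])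
      rw [hm, Nat.sub_zero, ← hPd]
      exact h1
    | succ j ih =>
      intro hj
      obtain ⟨Q, hQ, hQd, hlt⟩ := ih (by omega)
      set c : κ := (P - Q ^ 2).coeff (2 * M - j - 1) with hc
      set s : κ[X] := C (c / 2) * X ^ (M - (j + 1)) with hs
      have hsd : s.degree < Q.degree := by
        rw [degree_eq_natDegree hQ.ne_zero, hQd]
        refine lt_of_le_of_lt (degree_C_mul_X_pow_le _ _) ?_
        exact_mod_cast (by omega : M - (j + 1) < M)
      refine ⟨Q + s, hQ.add_of_left hsd, ?_, ?_⟩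
      · rw [natDegree_add_eq_left_of_degree_lt hsd, hQd]
      · rw [degree_lt_iff_coeff_zero]
        intro i hi
        have e1 : P - (Q + s) ^ 2 = (P - Q ^ 2) - (C c * X ^ (M - (j + 1)) * Q + s ^ 2) := by
          have : C c = C (c / 2) * 2 := by
            rw [show (2 : κ[X]) = C 2 from (map_ofNat C 2).symm, ← C_mul, div_mul_cancel₀ _ h2]
          rw [this, hs]
          ring
        rw [e1, coeff_sub, coeff_add]
        have hs2 : s ^ 2 = C ((c / 2) ^ 2) * X ^ (2 * (M - (j + 1))) := by
          rw [hs, mul_pow, ← C_pow, ← pow_mul, mul_comm (M - (j + 1)) 2]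
        have e2 : (s ^ 2).coeff i = 0 := by
          rw [hs2, coeff_C_mul, coeff_X_pow, if_neg (by omega), mul_zero]
        rw [e2, add_zero]
        have e3 : (C c * X ^ (M - (j + 1)) * Q).coeff i = c * Q.coeff (i - (M - (j + 1))) := by
          rw [mul_assoc, coeff_C_mul, coeff_X_pow_mul', if_pos (by omega)]
        rw [e3]
        rcases Nat.lt_or_ge i (2 * M - j) with h | h
        · have hi' : i = 2 * M - j - 1 := by omega
          have e4 : i - (M - (j + 1)) = M := by omega
          rw [e4]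
          have e5 : Q.coeff M = 1 := by
            rw [← hQd]; exact hQ
          rw [e5, mul_one, hi', ← hc, sub_self]
        · have e6 : (P - Q ^ 2).coeff i = 0 := by
            rw [degree_lt_iff_coeff_zero] at hlt
            exact hlt i h
          have e7 : Q.coeff (i - (M - (j + 1))) = 0 :=
            coeff_eq_zero_of_natDegree_lt (by rw [hQd]; omega)
          rw [e6, e7, mul_zero, sub_zero]
  obtain ⟨Q, h1, h2, h3⟩ := main M le_rfl
  refine ⟨Q, h1, h2, ?_⟩
  have : 2 * M - M = M := by omega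
  rwa [this] at h3

end sqrt

section flag

variable {κ : Type} [Field κ]

/-- bases adapted to a flag -/
theorem flag {V : Type} [AddCommGroup V] [Module κ V] [FiniteDimensional κ V] (N : ℕ)
    (hN : finrank κ V = N) (φ : ℕ → V →ₗ[κ] κ) :
    ∃ b : Fin N → V, LinearIndependent κ b ∧
      ∀ (i : Fin N) (l : ℕ), l + (i : ℕ) + 1 < N → φ l (b i) = 0 := by
  have main : ∀ m ≤ N, ∃ b : Fin m → V, LinearIndependent κ b ∧
      ∀ (i : Fin m) (l : ℕ), l + (i : ℕ) + 1 < N → φ l (b i) = 0 := by
    intro m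
    induction m with
    | zero =>
      intro _
      exact ⟨Fin.elim0, linearIndependent_empty_type, fun i => i.elim0⟩
    | succ m ih =>
      intro hm
      obtain ⟨b, hb, hb2⟩ := ih (by omega)
      let Φ : V →ₗ[κ] (Fin (N - 1 - m) → κ) := LinearMap.pi fun l => φ l
      have h1 := LinearMap.finrank_range_add_finrank_ker Φ
      have h2 : finrank κ (LinearMap.range Φ) ≤ N - 1 - m := by
        have := Submodule.finrank_le (LinearMap.range Φ)
        rwa [Module.finrank_fin_fun] at this
      have h3 : m + 1 ≤ finrank κ (LinearMap.ker Φ) := by omega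
      have h4 : finrank κ (Submodule.span κ (Set.range b)) = m := by
        rw [finrank_span_eq_card hb, Fintype.card_fin]
      have h5 : ¬ (LinearMap.ker Φ ≤ Submodule.span κ (Set.range b)) := by
        intro h
        have := Submodule.finrank_mono h
        omega
      obtain ⟨w, hw, hw2⟩ := SetLike.not_le_iff_exists.1 h5
      refine ⟨Fin.snoc b w, ?_, ?_⟩
      · exact linearIndependent_finSnoc.2 ⟨hb, hw2⟩
      · intro i
        refine Fin.lastCases ?_ (fun i => ?_) i
        · intro l hl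
          rw [Fin.snoc_last]
          rw [Fin.val_last] at hl
          have h6 : Φ w = 0 := hw
          have h7 := congrFun h6 (⟨l, by omega⟩ : Fin (N - 1 - m))
          exact h7
        · intro l hl
          rw [Fin.snoc_castSucc]
          exact hb2 i l (by simpa using hl)
  exact main N le_rfl

end flag

section nonsq

variable {κ : Type} [Field κ]

theorem nonsq (s h w Y : κ[X]) (hs : s ≠ 0) (hw : w ≠ 0) (hh : Squarefree h)
    (hu : 0 < h.natDegree) (e : Y ^ 2 = s ^ 2 * h * w ^ 2) : False := by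
  have h1 : (s * w) ^ 2 ∣ Y ^ 2 := ⟨h, by rw [e]; ring⟩
  have h2 : s * w ∣ Y := (UniqueFactorizationMonoid.pow_dvd_pow_iff_dvd two_ne_zero).1 h1
  obtain ⟨y, rfl⟩ := h2
  have h3 : h = y * y := by
    have : (s * w) ^ 2 * h = (s * w) ^ 2 * (y * y) := by linear_combination -e
    exact mul_left_cancel₀ (pow_ne_zero _ (mul_ne_zero hs hw)) this
  have h4 : IsUnit y := hh y ⟨1, by rw [h3, mul_one]⟩
  have h5 : IsUnit h := by rw [h3]; exact h4.mul h4
  rw [natDegree_eq_zero_of_isUnit h5] at hu
  exact lt_irrefl _ hu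

/-- `1`, `√(p q)`, `√(p r)` are linearly independent -/
theorem indep (h2 : (2 : κ) ≠ 0) (p q r : κ[X]) (hsep : (p * q * r).Separable)
    (hq : 0 < q.natDegree) (hr : 0 < r.natDegree) (A B1 B2 : κ[X])
    (e : (A ^ 2 - B1 ^ 2 * (p * q) - B2 ^ 2 * (p * r)) ^ 2 =
      4 * B1 ^ 2 * B2 ^ 2 * ((p * q) * (p * r))) : A = 0 ∧ B1 = 0 ∧ B2 = 0 := by
  have hp0 : p ≠ 0 := by
    rintro rfl
    rw [zero_mul, zero_mul] at hsep
    exact hsep.ne_zero rfl
  have hq0 : q ≠ 0 := by
    rintro rfl; simp at hq
  have hr0 : r ≠ 0 := by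
    rintro rfl; simp at hr
  have hsq := hsep.squarefree
  have sq1 : Squarefree (p * q) := hsq.squarefree_of_dvd ⟨r, rfl⟩
  have sq2 : Squarefree (p * r) := hsq.squarefree_of_dvd ⟨q, by ring⟩
  have sq3 : Squarefree (q * r) := hsq.squarefree_of_dvd ⟨p, by ring⟩
  have d1 : 0 < (p * q).natDegree := by rw [natDegree_mul hp0 hq0]; omega
  have d2 : 0 < (p * r).natDegree := by rw [natDegree_mul hp0 hr0]; omega
  have d3 : 0 < (q * r).natDegree := by rw [natDegree_mul hq0 hr0]; omega
  have h2' : (2 : κ[X]) ≠ 0 := by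
    rw [show (2 : κ[X]) = C 2 from (map_ofNat C 2).symm]
    exact C_ne_zero.2 h2
  by_cases hB1 : B1 = 0
  · subst hB1
    have e1 : A ^ 2 = B2 ^ 2 * (p * r) := by
      have : (A ^ 2 - B2 ^ 2 * (p * r)) ^ 2 = 0 := by linear_combination e
      exact sub_eq_zero.1 (pow_eq_zero_iff two_ne_zero |>.1 this)
    by_cases hB2 : B2 = 0
    · subst hB2
      refine ⟨?_, rfl, rfl⟩
      have : A ^ 2 = 0 := by rw [e1]; ring
      exact pow_eq_zero_iff two_ne_zero |>.1 this
    · exact (nonsq 1 (p * r) B2 A one_ne_zero hB2 sq2 d2 (by rw [e1]; ring)).elim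
  · by_cases hB2 : B2 = 0
    · subst hB2
      have e1 : A ^ 2 = B1 ^ 2 * (p * q) := by
        have : (A ^ 2 - B1 ^ 2 * (p * q)) ^ 2 = 0 := by linear_combination e
        exact sub_eq_zero.1 (pow_eq_zero_iff two_ne_zero |>.1 this)
      exact (nonsq 1 (p * q) B1 A one_ne_zero hB1 sq1 d1 (by rw [e1]; ring)).elim
    · exact (nonsq p (q * r) (2 * B1 * B2) _ hp0
        (mul_ne_zero (mul_ne_zero h2' hB1) hB2) sq3 d3 (by rw [e]; ring)).elim

end nonsq

end Pool.Agent.H16U
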