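import Mathlib
import Pool.Agent.N754.MT.Low
import Pool.Agent.H16U.Alg

/-!
# Values of polynomials and of square roots at a large element
-/

set_option autoImplicit false
set_option linter.unusedSectionVars false

open Finset Filter Module Polynomial

namespace Pool.Agent.H16U

open Pool.Agent.N754.MT

variable {k R : Type} [Field k] [CommRing R] [IsDomain R] [Algebra k R] (D : Dm k R)

theorem A_neg' (y : R) : ∀ᶠ ω in D.ev, D.A (-y) ω = D.A y ω := by
  filter_upwards [D.A_mul (-y) (-y), D.A_mul y y, D.A_nonneg y, D.A_nonneg (-y)] with ω h1 h2 h3 h4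
  rw [neg_mul_neg, h2] at h1
  nlinarith [mul_self_eq_mul_self_iff.1 h1.symm]

/-- a nonnegative negligible function which bounds finitely many given ones -/
theorem sum_neg {ι : Type} [Fintype ι] (g : ι → D.Ω → ℝ) (hg : ∀ i, D.Neg (g i))
    (h0 : ∀ i, ∀ᶠ ω in D.ev, 0 ≤ g i ω) :
    D.Neg (fun ω => ∑ i, g i ω) ∧ (∀ᶠ ω in D.ev, 0 ≤ ∑ i, g i ω) ∧
      ∀ i, ∀ᶠ ω in D.ev, g i ω ≤ ∑ i, g i ω := by
  refine ⟨D.neg_sum _ _ fun i _ => hg i, ?_, ?_⟩
  · filter_upwards [(Filter.eventually_all).2 h0] with ω h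
    exact Finset.sum_nonneg fun i _ => h i
  · intro i
    filter_upwards [(Filter.eventually_all).2 h0] with ω h
    exact Finset.single_le_sum (f := fun i => g i ω) (fun i _ => h i) (Finset.mem_univ i)

/-- values of polynomials -/
theorem poly_le (x : R) (hx : ∀ᶠ ω in D.ev, 1 ≤ D.A x ω) (P : k[X]) (d : ℕ)
    (hP : P.natDegree ≤ d) :
    ∃ g : D.Ω → ℝ, D.Neg g ∧ ∀ᶠ ω in D.ev, 0 ≤ g ω ∧
      D.A (aeval x P) ω ≤ Real.exp (g ω) * D.A x ω ^ d := by
  classical
  choose g hg hg2 using fun i : Fin (d + 1) => D.A_small (P.coeff i)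
  obtain ⟨s1, s2, s3⟩ := sum_neg D g hg fun i => (hg2 i).mono fun ω h => h.1
  refine ⟨fun ω => ∑ i, g i ω + Real.log (d + 1), D.neg_add _ _ s1 (D.neg_const _), ?_⟩
  have e0 : aeval x P = ∑ i : Fin (d + 1), algebraMap k R (P.coeff i) * x ^ (i : ℕ) := by
    rw [aeval_eq_sum_range' (n := d + 1) (by omega), ← Fin.sum_univ_eq_sum_range
      (fun i => P.coeff i • x ^ i)]
    exact Finset.sum_congr rfl fun i _ => Algebra.smul_def _ _
  rw [e0]
  have hl : 0 ≤ Real.log ((d : ℝ) + 1) := Real.log_nonneg (by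
    have : (0 : ℝ) ≤ d := Nat.cast_nonneg d
    linarith)
  filter_upwards [hx, s2, (Filter.eventually_all).2 s3, (Filter.eventually_all).2 hg2,
    D.A_sum Finset.univ (fun i : Fin (d + 1) => algebraMap k R (P.coeff i) * x ^ (i : ℕ)),
    (Filter.eventually_all).2 fun i : Fin (d + 1) => D.A_mul (algebraMap k R (P.coeff i))
      (x ^ (i : ℕ)),
    (Filter.eventually_all).2 fun i : Fin (d + 1) => D.A_pow x i] with ω h1 h2 h3 h4 h5 h6 h7
  refine ⟨by positivity, h5.trans ?_⟩
  have h8 : ∀ i : Fin (d + 1), D.A (algebraMap k R (P.coeff i) * x ^ (i : ℕ)) ω ≤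
      Real.exp (∑ i, g i ω) * D.A x ω ^ d := by
    intro i
    rw [h6 i, h7 i]
    refine mul_le_mul ((h4 i).2.trans (Real.exp_le_exp.2 (h3 i)))
      (pow_le_pow_right₀ h1 (by omega)) (by positivity) (Real.exp_pos _).le
  refine (Finset.sum_le_sum fun i _ => h8 i).trans ?_
  rw [Finset.sum_const, Finset.card_univ, Fintype.card_fin, nsmul_eq_mul, Real.exp_add,
    Real.exp_log (by positivity)]
  push_cast
  exact le_of_eq (by ring)

/-- a large element is not algebraic -/
theorem alg_neg (x : R) (hx : ∀ᶠ ω in D.ev, 1 ≤ D.A x ω) (P : k[X]) (hP : P ≠ 0)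
    (h0 : aeval x P = 0) : D.Neg (fun ω => D.lg x ω) := by
  have hd : P.natDegree ≠ 0 := by
    intro hd
    rw [eq_C_of_natDegree_eq_zero hd, aeval_C] at h0
    have h1 : P.coeff 0 = 0 := (map_eq_zero (algebraMap k R)).1 h0
    exact hP (by rw [eq_C_of_natDegree_eq_zero hd, h1, C_0])
  obtain ⟨d, hd'⟩ := Nat.exists_eq_succ_of_ne_zero hd
  obtain ⟨g, hg, hg2⟩ := poly_le D x hx (-P.eraseLead) d (by
    rw [natDegree_neg]
    have := eraseLead_natDegree_le P
    omega)
  have hc : P.leadingCoeff ≠ 0 := leadingCoeff_ne_zero.2 hP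
  refine D.neg_mono _ _ ?_ (D.neg_add _ _ hg (const_low D _ hc))
  have e1 : algebraMap k R P.leadingCoeff * x ^ (d + 1) = aeval x (-P.eraseLead) := by
    have h1 := congrArg (aeval x) (eraseLead_add_C_mul_X_pow P)
    rw [map_add, h0, map_mul, map_pow, aeval_C, aeval_X, hd'] at h1
    rw [map_neg]
    simp only [Nat.succ_eq_add_one] at h1
    linear_combination h1
  filter_upwards [hx, hg2, D.A_mul (algebraMap k R P.leadingCoeff) (x ^ (d + 1)),
    D.A_pow x (d + 1), D.A_pos _ ((_root_.map_ne_zero (algebraMap k R)).2 hc)] with ω h1 h2 h3 h4 h5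
  rw [e1, h4] at h3
  have h6 : 0 < D.A x ω := by linarith
  have h7 : D.A (algebraMap k R P.leadingCoeff) ω * D.A x ω ≤ Real.exp (g ω) := by
    have h8 : D.A (algebraMap k R P.leadingCoeff) ω * D.A x ω ^ (d + 1) ≤
        Real.exp (g ω) * D.A x ω ^ d := by rw [← h3]; exact h2.2
    have h9 : (D.A (algebraMap k R P.leadingCoeff) ω * D.A x ω) * D.A x ω ^ d ≤
        Real.exp (g ω) * D.A x ω ^ d := by
      calc _ = D.A (algebraMap k R P.leadingCoeff) ω * D.A x ω ^ (d + 1) := by ring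
        _ ≤ _ := h8
    exact le_of_mul_le_mul_right h9 (by positivity)
  have h8 := Real.log_le_log (mul_pos h5 h6) h7
  rw [Real.log_mul h5.ne' h6.ne', Real.log_exp] at h8
  have h9 := neg_abs_le (Real.log (D.A (algebraMap k R P.leadingCoeff) ω))
  show Real.log (D.A x ω) ≤ g ω + |Real.log (D.A (algebraMap k R P.leadingCoeff) ω)|
  linarith

/-- a square root of a monic polynomial at a large element is close to a polynomial, up to sign -/
theorem near (h2 : (2 : k) ≠ 0) (x Z : R) (hx : ∀ᶠ ω in D.ev, 1 ≤ D.A x ω) (G : k[X])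
    (hG : G.Monic) (K J : ℕ) (hd : G.natDegree = 2 * K) (hJ : 1 ≤ J)
    (hZ : Z ^ 2 = aeval x G) :
    ∃ Q : k[X], Q.natDegree = J + K ∧ ∃ g : D.Ω → ℝ, D.Neg g ∧ ∀ᶠ ω in D.ev, 0 ≤ g ω ∧
      (D.A (x ^ J * Z - aeval x Q) ω ≤ Real.exp (g ω) ∨
        D.A (x ^ J * Z + aeval x Q) ω ≤ Real.exp (g ω)) := by
  set P : k[X] := X ^ (2 * J) * G with hP
  have hPm : P.Monic := (monic_X_pow _).mul hG
  have hPd : P.natDegree = 2 * (J + K) := by
    rw [hP, (monic_X_pow _).natDegree_mul hG, natDegree_X_pow, hd]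
    ring
  obtain ⟨Q, hQm, hQd, hQ⟩ := sqrt_poly h2 P hPm (J + K) hPd
  set M : ℕ := J + K with hM
  have hM1 : 1 ≤ M := by omega
  set a : R := x ^ J * Z with ha
  set q : R := aeval x Q with hq
  have har : (a - q) * (a + q) = aeval x (P - Q ^ 2) := by
    rw [map_sub, hP, map_mul, map_pow, map_pow, aeval_X, ← hZ, ← hq, ha]
    ring
  obtain ⟨g1, hg1, hg1'⟩ := poly_le D x hx (P - Q ^ 2) (M - 1) (by
    by_cases h0 : P - Q ^ 2 = 0
    · rw [h0, natDegree_zero]; omega
    · have := (natDegree_lt_iff_degree_lt h0).2 hQ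
      omega)
  have hg2 := const_low D (2 : k) h2
  obtain ⟨g3, hg3, hg3'⟩ := poly_le D x hx (X ^ M - Q) (M - 1) (by
    by_cases h0 : X ^ M - Q = 0
    · rw [h0, natDegree_zero]; omega
    · have h1 : (X ^ M - Q).degree < (X ^ M : k[X]).degree := by
        refine degree_sub_lt_left ?_ (monic_X_pow M).ne_zero ?_
        · rw [degree_X_pow, degree_eq_natDegree hQm.ne_zero, hQd]
        · rw [(monic_X_pow M).leadingCoeff, hQm.leadingCoeff]
      rw [degree_X_pow] at h1
      have := (natDegree_lt_iff_degree_lt h0).2 h1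
      omega)
  refine ⟨Q, hQd, fun ω => g1 ω + |D.lg (algebraMap k R 2) ω| + M * (Real.log 4 + g3 ω),
    D.neg_add _ _ (D.neg_add _ _ hg1 hg2) (D.neg_smul _ _ (Nat.cast_nonneg _)
      (D.neg_add _ _ (D.neg_const _) hg3)), ?_⟩
  have h2R : (algebraMap k R) 2 ≠ 0 := (_root_.map_ne_zero _).2 h2
  filter_upwards [hx, hg1', hg3', D.A_mul (a - q) (a + q), D.A_pos _ h2R, D.A_nonneg (a - q),
    D.A_nonneg (a + q), A_neg' D (a - q), D.A_add (a + q) (-(a - q)), D.A_mul (algebraMap k R 2) q,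
    D.A_pow x M, D.A_add q (aeval x (X ^ M - Q))] with
    ω h1 h3 h4 h5 h6 h7 h8 h9 h10 h11 h12 h13
  have hlog4 : 0 < Real.log 4 := Real.log_pos (by norm_num)
  have habs : 0 ≤ |D.lg (algebraMap k R 2) ω| := abs_nonneg _
  have hM0 : (1 : ℝ) ≤ M := by exact_mod_cast hM1
  have hmg : 0 ≤ (M : ℝ) * (Real.log 4 + g3 ω) := by
    have := h4.1
    positivity
  have hX : 0 < D.A x ω := by linarith
  refine ⟨by linarith [h3.1], ?_⟩
  by_contra hcon
  push Not at hcon
  obtain ⟨c1, c2⟩ := hcon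
  set g := g1 ω + |D.lg (algebraMap k R 2) ω| + M * (Real.log 4 + g3 ω) with hgdef
  rw [har] at h5
  have hprod : D.A (a - q) ω * D.A (a + q) ω ≤ Real.exp (g1 ω) * D.A x ω ^ (M - 1) := by
    rw [← h5]; exact h3.2
  have hg1le : g1 ω ≤ g := by linarith
  -- large or small
  rcases le_or_gt (D.A x ω) (2 * Real.exp (g3 ω)) with hsm | hlg
  · have e1 : D.A x ω ^ (M - 1) ≤ Real.exp (M * (Real.log 4 + g3 ω)) := by
      have e2 : D.A x ω ≤ Real.exp (Real.log 4 + g3 ω) := by
        rw [Real.exp_add, Real.exp_log (by norm_num)]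
        have := Real.exp_pos (g3 ω)
        linarith
      calc D.A x ω ^ (M - 1) ≤ D.A x ω ^ M := pow_le_pow_right₀ h1 (by omega)
        _ ≤ Real.exp (Real.log 4 + g3 ω) ^ M := pow_le_pow_left₀ hX.le e2 _
        _ = _ := by rw [← Real.exp_nat_mul]
    have e3 : Real.exp g * Real.exp g < D.A (a - q) ω * D.A (a + q) ω :=
      mul_lt_mul'' c1 c2 (Real.exp_pos _).le (Real.exp_pos _).le
    have e4 : Real.exp (g1 ω) * D.A x ω ^ (M - 1) ≤ Real.exp g * Real.exp g := by
      refine mul_le_mul (Real.exp_le_exp.2 hg1le) (e1.trans (Real.exp_le_exp.2 ?_))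
        (by positivity) (Real.exp_pos _).le
      linarith [h3.1]
    linarith
  · -- lower bound for `q`
    have e1 : D.A x ω ^ M ≤ D.A q ω + Real.exp (g3 ω) * D.A x ω ^ (M - 1) := by
      have e2 : q + aeval x (X ^ M - Q) = x ^ M := by
        rw [map_sub, map_pow, aeval_X, hq]; ring
      rw [e2, h12] at h13
      linarith [h4.2]
    have e3 : D.A x ω ^ M = D.A x ω * D.A x ω ^ (M - 1) := by
      rw [← pow_succ']
      congr 1
      omega
    have hpow : 0 < D.A x ω ^ (M - 1) := by positivity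
    have e4 : D.A x ω * D.A x ω ^ (M - 1) ≤ 2 * D.A q ω := by
      rw [e3] at e1
      nlinarith
    -- lower bound for the sum
    have e5 : D.A (algebraMap k R 2) ω * D.A q ω ≤ D.A (a + q) ω + D.A (a - q) ω := by
      rw [← h11]
      have e6 : algebraMap k R 2 * q = (a + q) + -(a - q) := by
        rw [map_ofNat]; ring
      rw [e6, ← h9]
      exact h10
    have e7 : Real.exp (-|D.lg (algebraMap k R 2) ω|) ≤ D.A (algebraMap k R 2) ω := by
      rw [← Real.log_le_log_iff (Real.exp_pos _) h6, Real.log_exp]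
      exact neg_abs_le _
    have e8 : Real.exp (-|D.lg (algebraMap k R 2) ω|) * (D.A x ω * D.A x ω ^ (M - 1)) ≤
        2 * (D.A (a + q) ω + D.A (a - q) ω) := by
      have hq0 : 0 ≤ D.A q ω := by
        have : 0 ≤ D.A x ω * D.A x ω ^ (M - 1) := by positivity
        linarith
      calc _ ≤ D.A (algebraMap k R 2) ω * (2 * D.A q ω) :=
            mul_le_mul e7 e4 (by positivity) h6.le
        _ = 2 * (D.A (algebraMap k R 2) ω * D.A q ω) := by ring
        _ ≤ _ := by linarith
    set s := D.A (a + q) ω with hs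
    set r := D.A (a - q) ω with hr
    set E := Real.exp (-|D.lg (algebraMap k R 2) ω|) with hE
    have hE0 : 0 < E := Real.exp_pos _
    -- the smaller one times the larger one
    have e9 : Real.exp g * (E * (D.A x ω * D.A x ω ^ (M - 1))) <
        4 * (Real.exp (g1 ω) * D.A x ω ^ (M - 1)) := by
      have hs0 : 0 < s := (Real.exp_pos g).trans c2
      have hr0 : 0 < r := (Real.exp_pos g).trans c1
      have e10 : Real.exp g * (s + r) < 2 * (r * s) := by
        have f1 := mul_lt_mul_of_pos_right c1 hs0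
        have f2 := mul_lt_mul_of_pos_right c2 hr0
        linarith [mul_comm s r]
      have e10' := mul_le_mul_of_nonneg_left e8 (Real.exp_pos g).le
      linarith
    have e11 : Real.exp g * E ≤ Real.exp g * E * D.A x ω := by
      have : 0 < Real.exp g * E := by positivity
      nlinarith
    have e12 : Real.exp g * E * D.A x ω < 4 * Real.exp (g1 ω) := by
      have : (Real.exp g * E * D.A x ω) * D.A x ω ^ (M - 1) <
          (4 * Real.exp (g1 ω)) * D.A x ω ^ (M - 1) := by
        calc _ = Real.exp g * (E * (D.A x ω * D.A x ω ^ (M - 1))) := by ring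
          _ < _ := e9
          _ = _ := by ring
      exact lt_of_mul_lt_mul_right this hpow.le
    have e13 : 4 * Real.exp (g1 ω) ≤ Real.exp g * E := by
      rw [hE, ← Real.exp_add]
      have : (4 : ℝ) = Real.exp (Real.log 4) := (Real.exp_log (by norm_num)).symm
      rw [this, ← Real.exp_add, Real.exp_le_exp, hgdef]
      have hh : Real.log 4 ≤ M * (Real.log 4 + g3 ω) := by nlinarith [h4.1]
      linarith
    linarith

end Pool.Agent.H16U
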