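import Mathlib
import Pool.Agent.H16U.Val

/-!
# Two square roots at a large element: the subspace theorem

If `x` is large and `Z₁² = (p q)(x)`, `Z₂² = (p r)(x)` with monic polynomials over the field of small
elements, `p q` and `p r` of even degree, `p q r` separable and `q`, `r` not constant, then `x` is
small.
-/

set_option autoImplicit false
set_option linter.unusedSectionVars false

open Finset Filter Module Polynomial

namespace Pool.Agent.H16U

open Pool.Agent.N754.MT

variable {k R : Type} [Field k] [CommRing R] [IsDomain R] [Algebra k R]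

section space

variable (k) in
/-- triples of polynomials -/
abbrev VV (a0 a1 a2 : ℕ) : Type := degreeLT k a0 × degreeLT k a1 × degreeLT k a2

theorem finrank_VV (a0 a1 a2 : ℕ) : finrank k (VV k a0 a1 a2) = a0 + (a1 + a2) := by
  have h : ∀ a : ℕ, finrank k (degreeLT k a) = a := fun a => by
    rw [(degreeLTEquiv k a).finrank_eq, Module.finrank_fin_fun]
  rw [Module.finrank_prod, Module.finrank_prod, h, h, h]

instance (a : ℕ) : FiniteDimensional k (degreeLT k a) :=
  Module.Finite.equiv (degreeLTEquiv k a).symm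

/-- the value -/
noncomputable def ev (a0 a1 a2 : ℕ) (x Z1 Z2 : R) : VV k a0 a1 a2 →ₗ[k] R where
  toFun F := aeval x (F.1 : k[X]) + aeval x (F.2.1 : k[X]) * Z1 + aeval x (F.2.2 : k[X]) * Z2
  map_add' F G := by
    simp only [Prod.fst_add, Prod.snd_add, Submodule.coe_add, map_add]
    ring
  map_smul' c F := by
    simp only [Prod.smul_fst, Prod.smul_snd, Submodule.coe_smul, map_smul, RingHom.id_apply]
    simp only [Algebra.smul_def]
    ring

/-- the polynomial close to the value -/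
noncomputable def ph (a0 a1 a2 J : ℕ) (Q1 Q2 : k[X]) : VV k a0 a1 a2 →ₗ[k] k[X] where
  toFun F := X ^ J * (F.1 : k[X]) + (F.2.1 : k[X]) * Q1 + (F.2.2 : k[X]) * Q2
  map_add' F G := by
    simp only [Prod.fst_add, Prod.snd_add, Submodule.coe_add]
    ring
  map_smul' c F := by
    simp only [Prod.smul_fst, Prod.smul_snd, Submodule.coe_smul, RingHom.id_apply, smul_eq_C_mul]
    ring

theorem natDegree_lt_of_mem {a : ℕ} (ha : 0 < a) {P : k[X]} (h : P ∈ degreeLT k a) :
    P.natDegree < a := by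
  by_cases h0 : P = 0
  · rw [h0, natDegree_zero]; exact ha
  · exact (natDegree_lt_iff_degree_lt h0).2 (mem_degreeLT.1 h)

end space

/-- the value is not zero -/
theorem ev_ker (D : Dm k R) (h2 : (2 : k) ≠ 0) (x Z1 Z2 : R) (hx : ∀ᶠ ω in D.ev, 1 ≤ D.A x ω)
    (p q r : k[X]) (hsep : (p * q * r).Separable) (hq : 0 < q.natDegree) (hr : 0 < r.natDegree)
    (hZ1 : Z1 ^ 2 = aeval x (p * q)) (hZ2 : Z2 ^ 2 = aeval x (p * r))
    (hcon : ¬ D.Neg (fun ω => D.lg x ω)) (a0 a1 a2 : ℕ) :
    LinearMap.ker (ev (k := k) a0 a1 a2 x Z1 Z2) = ⊥ := by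
  rw [LinearMap.ker_eq_bot']
  intro F hF
  have hF' : aeval x (F.1 : k[X]) + aeval x (F.2.1 : k[X]) * Z1 +
    aeval x (F.2.2 : k[X]) * Z2 = 0 := hF
  by_contra hne
  set A : k[X] := F.1.1 with hA
  set B1 : k[X] := F.2.1.1 with hB1
  set B2 : k[X] := F.2.2.1 with hB2
  set P : k[X] := (A ^ 2 - B1 ^ 2 * (p * q) - B2 ^ 2 * (p * r)) ^ 2 -
    4 * B1 ^ 2 * B2 ^ 2 * ((p * q) * (p * r)) with hP
  by_cases hP0 : P = 0
  · obtain ⟨e1, e2, e3⟩ := indep h2 p q r hsep hq hr A B1 B2 (sub_eq_zero.1 hP0)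
    apply hne
    ext1
    · exact Subtype.ext e1
    · ext1
      · exact Subtype.ext e2
      · exact Subtype.ext e3
  · refine hcon (alg_neg D x hx P hP0 ?_)
    have e1 : aeval x A = -(aeval x B1 * Z1 + aeval x B2 * Z2) := by linear_combination hF'
    rw [hP]
    simp only [map_sub, map_mul, map_pow, map_ofNat] at *
    rw [← hZ1, ← hZ2, e1]
    ring

theorem core (D : Dm k R) (h2 : (2 : k) ≠ 0) (x Z1 Z2 : R)
    (hx : ∀ᶠ ω in D.ev, 1 ≤ D.A x ω) (p q r : k[X]) (hp : p.Monic) (hqm : q.Monic)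
    (hrm : r.Monic) (hsep : (p * q * r).Separable) (hq : 0 < q.natDegree) (hr : 0 < r.natDegree)
    (hev1 : Even (p * q).natDegree) (hev2 : Even (p * r).natDegree)
    (hZ1 : Z1 ^ 2 = aeval x (p * q)) (hZ2 : Z2 ^ 2 = aeval x (p * r)) :
    D.Neg (fun ω => D.lg x ω) := by
  classical
  by_contra hcon
  obtain ⟨K1, hK1⟩ := hev1
  obtain ⟨K2, hK2⟩ := hev2
  have d1 : (p * q).natDegree = 2 * K1 := by omega
  have d2 : (p * r).natDegree = 2 * K2 := by omega
  set n : ℕ := K1 + K2 with hn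
  set a0 : ℕ := n + 1 with ha0
  set a1 : ℕ := K2 + 1 with ha1
  set a2 : ℕ := K1 + 1 with ha2
  set N : ℕ := 2 * n + 3 with hN
  set J : ℕ := N with hJ
  obtain ⟨Q1, hQ1, g1, hg1, hg1'⟩ := near D h2 x Z1 hx (p * q) (hp.mul hqm) K1 J d1 (by omega) hZ1
  obtain ⟨Q2, hQ2, g2, hg2, hg2'⟩ := near D h2 x Z2 hx (p * r) (hp.mul hrm) K2 J d2 (by omega) hZ2
  have hker := ev_ker D h2 x Z1 Z2 hx p q r hsep hq hr hZ1 hZ2 hcon a0 a1 a2
  set E := ev (k := k) a0 a1 a2 x Z1 Z2 with hE
  have hfr : finrank k (VV k a0 a1 a2) = N := by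
    rw [finrank_VV]; omega
  -- signs
  let sg : Bool → k := fun b => if b then 1 else -1
  let Φ : Bool × Bool → VV k a0 a1 a2 →ₗ[k] k[X] := fun σ =>
    ph a0 a1 a2 J (C (sg σ.1) * Q1) (C (sg σ.2) * Q2)
  choose b hb hb2 using fun σ : Bool × Bool =>
    flag N hfr (fun l => (lcoeff k (J + n - l)).comp (Φ σ))
  have hspan : ∀ σ, Submodule.span k (Set.range (b σ)) = ⊤ := fun σ =>
    (hb σ).span_eq_top_of_card_eq_finrank' (by rw [Fintype.card_fin, hfr])
  -- degrees
  have hmem : ∀ F : VV k a0 a1 a2, (F.1 : k[X]).natDegree ≤ n ∧ (F.2.1 : k[X]).natDegree ≤ K2 ∧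
      (F.2.2 : k[X]).natDegree ≤ K1 := by
    intro F
    have h1 := natDegree_lt_of_mem (by omega) F.1.2
    have h2 := natDegree_lt_of_mem (by omega) F.2.1.2
    have h3 := natDegree_lt_of_mem (by omega) F.2.2.2
    omega
  have hdeg : ∀ σ i, (Φ σ (b σ i)).natDegree ≤ J + n - (N - 1 - (i : ℕ)) := by
    intro σ i
    obtain ⟨m1, m2, m3⟩ := hmem (b σ i)
    have hle : (Φ σ (b σ i)).natDegree ≤ J + n := by
      show (X ^ J * ((b σ i).1 : k[X]) + ((b σ i).2.1 : k[X]) * (C (sg σ.1) * Q1) +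
        ((b σ i).2.2 : k[X]) * (C (sg σ.2) * Q2)).natDegree ≤ J + n
      have t1 : (X ^ J * ((b σ i).1 : k[X])).natDegree ≤ J + n := by
        refine natDegree_mul_le.trans ?_
        rw [natDegree_X_pow]; omega
      have t2 : (((b σ i).2.1 : k[X]) * (C (sg σ.1) * Q1)).natDegree ≤ J + n := by
        refine natDegree_mul_le.trans ?_
        have := natDegree_C_mul_le (sg σ.1) Q1
        omega
      have t3 : (((b σ i).2.2 : k[X]) * (C (sg σ.2) * Q2)).natDegree ≤ J + n := by
        refine natDegree_mul_le.trans ?_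
        have := natDegree_C_mul_le (sg σ.2) Q2
        omega
      exact natDegree_add_le_of_degree_le (natDegree_add_le_of_degree_le t1 t2) t3
    rw [natDegree_le_iff_coeff_eq_zero]
    intro m hm
    rcases Nat.lt_or_ge (J + n) m with h | h
    · exact coeff_eq_zero_of_natDegree_lt (by omega)
    · have h1 := hb2 σ i (J + n - m) (by omega)
      have h3 : J + n - (J + n - m) = m := by omega
      simpa [h3] using h1
  -- bounds
  have hbd : ∀ (σ : Bool × Bool) (i : Fin N), ∃ g : D.Ω → ℝ, D.Neg g ∧ ∀ᶠ ω in D.ev, 0 ≤ g ω ∧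
      (D.A (x ^ J * Z1 - aeval x (C (sg σ.1) * Q1)) ω ≤ Real.exp (g1 ω) →
      D.A (x ^ J * Z2 - aeval x (C (sg σ.2) * Q2)) ω ≤ Real.exp (g2 ω) →
      D.lg (E (b σ i)) ω ≤ g ω + ((n : ℝ) - (N - 1 - i)) * D.lg x ω) := by
    intro σ i
    obtain ⟨m1, m2, m3⟩ := hmem (b σ i)
    obtain ⟨u1, hu1, hu1'⟩ := poly_le D x hx (Φ σ (b σ i)) _ (hdeg σ i)
    obtain ⟨u2, hu2, hu2'⟩ := poly_le D x hx ((b σ i).2.1 : k[X]) _ m2
    obtain ⟨u3, hu3, hu3'⟩ := poly_le D x hx ((b σ i).2.2 : k[X]) _ m3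
    refine ⟨fun ω => Real.log 3 + (u1 ω + (u2 ω + g1 ω) + (u3 ω + g2 ω)),
      D.neg_add _ _ (D.neg_const _) (D.neg_add _ _ (D.neg_add _ _ hu1 (D.neg_add _ _ hu2 hg1))
        (D.neg_add _ _ hu3 hg2)), ?_⟩
    set y := E (b σ i) with hy
    have hy0 : y ≠ 0 := by
      intro h
      have h1 : b σ i ∈ LinearMap.ker E := h
      rw [hker] at h1
      exact (hb σ).ne_zero i ((Submodule.mem_bot k).1 h1)
    set w1 := x ^ J * Z1 - aeval x (C (sg σ.1) * Q1) with hw1
    set w2 := x ^ J * Z2 - aeval x (C (sg σ.2) * Q2) with hw2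
    have hid : x ^ J * y = aeval x (Φ σ (b σ i)) + aeval x ((b σ i).2.1 : k[X]) * w1 +
        aeval x ((b σ i).2.2 : k[X]) * w2 := by
      have e1 : y = aeval x ((b σ i).1 : k[X]) + aeval x ((b σ i).2.1 : k[X]) * Z1 +
        aeval x ((b σ i).2.2 : k[X]) * Z2 := rfl
      have e2 : Φ σ (b σ i) = X ^ J * ((b σ i).1 : k[X]) +
        ((b σ i).2.1 : k[X]) * (C (sg σ.1) * Q1) + ((b σ i).2.2 : k[X]) * (C (sg σ.2) * Q2) := rfl
      rw [e1, e2, hw1, hw2]
      simp only [map_add, map_mul, map_pow, aeval_X]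
      ring
    filter_upwards [hx, hg1', hg2', hu1', hu2', hu3', D.A_pos y hy0, D.A_mul (x ^ J) y,
      D.A_pow x J, D.A_add (aeval x (Φ σ (b σ i)) + aeval x ((b σ i).2.1 : k[X]) * w1)
        (aeval x ((b σ i).2.2 : k[X]) * w2),
      D.A_add (aeval x (Φ σ (b σ i))) (aeval x ((b σ i).2.1 : k[X]) * w1),
      D.A_mul (aeval x ((b σ i).2.1 : k[X])) w1, D.A_mul (aeval x ((b σ i).2.2 : k[X])) w2,
      D.A_nonneg w1, D.A_nonneg w2] with
      ω f1 f2 f3 f4 f5 f6 f7 f8 f9 f10 f11 f12 f13 f14 f15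
    have hl3 : 0 < Real.log 3 := Real.log_pos (by norm_num)
    refine ⟨by linarith [f2.1, f3.1, f4.1, f5.1, f6.1], fun s1 s2 => ?_⟩
    have hX : 0 < D.A x ω := by linarith
    set e : ℕ := J + n - (N - 1 - (i : ℕ)) with he
    have hKe : K2 ≤ e ∧ K1 ≤ e := by omega
    set G := u1 ω + (u2 ω + g1 ω) + (u3 ω + g2 ω) with hG
    have b1 : D.A (aeval x (Φ σ (b σ i))) ω ≤ Real.exp G * D.A x ω ^ e := by
      refine f4.2.trans (mul_le_mul_of_nonneg_right (Real.exp_le_exp.2 ?_) (by positivity))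
      linarith [f2.1, f3.1, f4.1, f5.1, f6.1]
    have b2 : D.A (aeval x ((b σ i).2.1 : k[X]) * w1) ω ≤ Real.exp G * D.A x ω ^ e := by
      rw [f12]
      calc _ ≤ (Real.exp (u2 ω) * D.A x ω ^ K2) * Real.exp (g1 ω) :=
            mul_le_mul f5.2 s1 f14 (by positivity)
        _ = Real.exp (u2 ω + g1 ω) * D.A x ω ^ K2 := by rw [Real.exp_add]; ring
        _ ≤ _ := mul_le_mul (Real.exp_le_exp.2 (by linarith [f2.1, f3.1, f4.1, f5.1, f6.1]))
            (pow_le_pow_right₀ f1 hKe.1) (by positivity) (Real.exp_pos _).le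
    have b3 : D.A (aeval x ((b σ i).2.2 : k[X]) * w2) ω ≤ Real.exp G * D.A x ω ^ e := by
      rw [f13]
      calc _ ≤ (Real.exp (u3 ω) * D.A x ω ^ K1) * Real.exp (g2 ω) :=
            mul_le_mul f6.2 s2 f15 (by positivity)
        _ = Real.exp (u3 ω + g2 ω) * D.A x ω ^ K1 := by rw [Real.exp_add]; ring
        _ ≤ _ := mul_le_mul (Real.exp_le_exp.2 (by linarith [f2.1, f3.1, f4.1, f5.1, f6.1]))
            (pow_le_pow_right₀ f1 hKe.2) (by positivity) (Real.exp_pos _).le
    have b4 : D.A x ω ^ J * D.A y ω ≤ 3 * (Real.exp G * D.A x ω ^ e) := by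
      rw [← f9, ← f8, hid]
      linarith
    have b5 := Real.log_le_log (by positivity) b4
    rw [Real.log_mul (by positivity) f7.ne', Real.log_mul (by norm_num) (by positivity),
      Real.log_mul (Real.exp_pos _).ne' (by positivity), Real.log_exp, Real.log_pow,
      Real.log_pow] at b5
    have he' : (e : ℝ) = J + n - (N - 1 - i) := by
      have hi := i.2
      rw [he, Nat.cast_sub (by omega), Nat.cast_sub (by omega), Nat.cast_sub (by omega)]
      push_cast
      ring
    rw [he'] at b5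
    show Real.log (D.A y ω) ≤ Real.log 3 + G + ((n : ℝ) - (N - 1 - i)) * Real.log (D.A x ω)
    linarith
  choose g hg hg' using hbd
  -- the sign pattern
  let s : D.Ω → Bool × Bool := fun ω =>
    (decide (D.A (x ^ J * Z1 - aeval x Q1) ω ≤ Real.exp (g1 ω)),
      decide (D.A (x ^ J * Z2 - aeval x Q2) ω ≤ Real.exp (g2 ω)))
  let B : Bool × Bool → Fin N → R := fun σ i => E (b σ i)
  have hB1 : ∀ σ, LinearIndependent k (B σ) := fun σ => (hb σ).map' E hker
  have hB2 : ∀ σ, Submodule.span k (Set.range (B σ)) = LinearMap.range E := by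
    intro σ
    have h1 : Set.range (B σ) = E '' Set.range (b σ) := by
      rw [← Set.range_comp]; rfl
    rw [h1, Submodule.span_image, hspan, Submodule.map_top]
  have key := D.smt N (Bool × Bool) B hB1 (fun c c' => (hB2 c).trans (hB2 c').symm) s
  -- total
  have hG := sum_neg D (fun t : (Bool × Bool) × Fin N => g t.1 t.2) (fun t => hg t.1 t.2)
    (fun t => (hg' t.1 t.2).mono fun ω h => h.1)
  apply hcon
  have fin : D.Neg (fun ω => ((N : ℝ)) * D.lg x ω) := by
    refine D.neg_mono _ _ ?_ (D.neg_add _ _ key (D.neg_smul _ (N : ℝ) (Nat.cast_nonneg _) hG.1))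
    filter_upwards [hg1', hg2', (Filter.eventually_all).2 hG.2.2,
      (Filter.eventually_all).2 fun t : (Bool × Bool) × Fin N => hg' t.1 t.2] with ω f1 f2 f3 f4
    have c1 : D.A (x ^ J * Z1 - aeval x (C (sg (s ω).1) * Q1)) ω ≤ Real.exp (g1 ω) := by
      by_cases h : D.A (x ^ J * Z1 - aeval x Q1) ω ≤ Real.exp (g1 ω)
      · have : (s ω).1 = true := decide_eq_true h
        rw [this]
        simpa [sg] using h
      · have : (s ω).1 = false := decide_eq_false h
        rw [this]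
        have h' := f1.2.resolve_left h
        simpa [sg] using h'
    have c2 : D.A (x ^ J * Z2 - aeval x (C (sg (s ω).2) * Q2)) ω ≤ Real.exp (g2 ω) := by
      by_cases h : D.A (x ^ J * Z2 - aeval x Q2) ω ≤ Real.exp (g2 ω)
      · have : (s ω).2 = true := decide_eq_true h
        rw [this]
        simpa [sg] using h
      · have : (s ω).2 = false := decide_eq_false h
        rw [this]
        have h' := f2.2.resolve_left h
        simpa [sg] using h'
    have c3 : ∑ i, D.lg (B (s ω) i) ω ≤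
        ∑ i : Fin N, (∑ t : (Bool × Bool) × Fin N, g t.1 t.2 ω +
          ((n : ℝ) - (N - 1 - i)) * D.lg x ω) := by
      refine Finset.sum_le_sum fun i _ => ?_
      have h1 := (f4 (s ω, i)).2 c1 c2
      have h2 := f3 (s ω, i)
      show D.lg (E (b (s ω) i)) ω ≤ _
      simp only at h1 h2
      linarith
    have c4 : ∑ i : Fin N, (∑ t : (Bool × Bool) × Fin N, g t.1 t.2 ω +
        ((n : ℝ) - (N - 1 - i)) * D.lg x ω) =
        N * ∑ t : (Bool × Bool) × Fin N, g t.1 t.2 ω - N * D.lg x ω := by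
      rw [Finset.sum_add_distrib, Finset.sum_const, Finset.card_univ, Fintype.card_fin,
        nsmul_eq_mul, ← Finset.sum_mul]
      have e1 : ∑ i : Fin N, ((n : ℝ) - (N - 1 - i)) = -N := by
        have e2 : ∑ i : Fin N, ((i : ℕ) : ℝ) = N * (N - 1) / 2 := by
          rw [Fin.sum_univ_eq_sum_range (fun i => (i : ℝ))]
          have h := Finset.sum_range_id_mul_two N
          have h3 : 1 ≤ N := by omega
          have h' : ((∑ i ∈ Finset.range N, i : ℕ) : ℝ) * 2 = N * ((N - 1 : ℕ) : ℝ) := by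
            exact_mod_cast h
          rw [Nat.cast_sub h3] at h'
          push_cast at h'
          linarith
        have e3 : ∀ i : Fin N, (n : ℝ) - (N - 1 - i) = (n - (N - 1)) + (i : ℕ) := fun i => by ring
        rw [Finset.sum_congr rfl fun i _ => e3 i, Finset.sum_add_distrib, e2, Finset.sum_const,
          Finset.card_univ, Fintype.card_fin, nsmul_eq_mul]
        have hNn : (N : ℝ) = 2 * n + 3 := by
          have h5 := congrArg (Nat.cast : ℕ → ℝ) (hJ.symm.trans hN)
          push_cast at h5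
          exact h5
        rw [hNn]
        ring
      rw [e1]
      ring
    have c5 : ∑ a, Real.log (D.A (B (s ω) a) ω) = ∑ i, D.lg (B (s ω) i) ω := rfl
    rw [c5]
    linarith
  have hN0 : (0 : ℝ) < N := by
    have : 0 < N := by omega
    exact_mod_cast this
  refine D.neg_mono _ _ (Filter.Eventually.of_forall fun ω => ?_)
    (D.neg_smul _ (1 / (N : ℝ)) (by positivity) fin)
  refine le_of_eq ?_
  field_simp

end Pool.Agent.H16U
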