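import Mathlib
import Pool.Agent.N754.MT.Main
import Pool.Agent.H16U.Core

/-!
# Two square roots at a large element: version for the fields of fractions
-/

set_option autoImplicit false
set_option linter.unusedSectionVars false
set_option linter.overlappingInstances false

open Finset Filter Module Polynomial

namespace Pool.Agent.H16U

open Pool.Agent.N754.MT Pool.Agent.N754.LT

variable {k0 R0 E : Type} [Field k0] [CommRing R0] [IsDomain R0] [Algebra k0 R0] [Field E]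
  (D : Dc k0 R0) (θ : R0 →+* E) (hθ : Function.Injective θ)

theorem lift_poly (p : E[X]) (hpm : p.Monic) (hpc : ∀ i, p.coeff i ∈ kF D θ hθ) :
    ∃ p' : (KF D θ hθ)[X], p'.map (kE D θ hθ) = p ∧ p'.natDegree = p.natDegree ∧ p'.Monic := by
  refine lifts_and_natDegree_eq_and_monic ?_ hpm
  rw [lifts_iff_coeff_lifts]
  intro i
  exact ⟨(⟨p.coeff i, hpc i⟩ : kF D θ hθ), rfl⟩

theorem rE_aeval (y : RF D θ) (p : (KF D θ hθ)[X]) :
    rE D θ (aeval y p) = (p.map (kE D θ hθ)).eval (rE D θ y) := by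
  rw [← rEa_apply D θ hθ, ← aeval_algHom_apply, aeval_def, eval_map]
  rfl

theorem coreE (hsz : Szd D) (h2 : (2 : E) ≠ 0) (x : R0) (hx : ∀ᶠ ω in D.ev, 1 ≤ D.A x ω)
    (Z1 Z2 : E) (hZ1m : Z1 ∈ rF D θ) (hZ2m : Z2 ∈ rF D θ) (p q r : E[X])
    (hpm : p.Monic) (hqm : q.Monic) (hrm : r.Monic)
    (hpc : ∀ i, p.coeff i ∈ kF D θ hθ) (hqc : ∀ i, q.coeff i ∈ kF D θ hθ)
    (hrc : ∀ i, r.coeff i ∈ kF D θ hθ) (hsep : (p * q * r).Separable) (hq : 0 < q.natDegree)
    (hr : 0 < r.natDegree) (hev1 : Even (p * q).natDegree) (hev2 : Even (p * r).natDegree)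
    (hZ1 : Z1 ^ 2 = (p * q).eval (θ x)) (hZ2 : Z2 ^ 2 = (p * r).eval (θ x)) :
    D.Neg (fun ω => D.lg x ω) := by
  classical
  obtain ⟨p', hp1, hp2, hp3⟩ := lift_poly D θ hθ p hpm hpc
  obtain ⟨q', hq1, hq2, hq3⟩ := lift_poly D θ hθ q hqm hqc
  obtain ⟨r', hr1, hr2, hr3⟩ := lift_poly D θ hθ r hrm hrc
  let μ : Mv D (KF D θ hθ) (RF D θ) := mvF D θ hθ
  let DM : Dm (KF D θ hθ) (RF D θ) := μ.dm hsz
  have h2' : (2 : KF D θ hθ) ≠ 0 := by
    intro h
    apply h2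
    have h1 := congrArg (kE D θ hθ) h
    rwa [map_ofNat, map_zero] at h1
  let y1 : RF D θ := (⟨Z1, hZ1m⟩ : rF D θ)
  let y2 : RF D θ := (⟨Z2, hZ2m⟩ : rF D θ)
  have e1 : rE D θ y1 = Z1 := rfl
  have e2 : rE D θ y2 = Z2 := rfl
  have hlg := lg_j D θ hθ hsz x
  have key := core DM h2' (jR D θ x) y1 y2 (by
    filter_upwards [(mvF D θ hθ).AA_eq (jR D θ x) x 1 one_ne_zero (by
      rw [map_one, mul_one]; rfl), D.A_one, hx] with ω h1 h3 h4
    show 1 ≤ (mvF D θ hθ).AA (jR D θ x) ω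
    rw [h1, h3, div_one]
    exact h4) p' q' r' hp3 hq3 hr3 (by
    rw [← separable_map (kE D θ hθ), Polynomial.map_mul, Polynomial.map_mul, hp1, hq1, hr1]
    exact hsep) (by rw [hq2]; exact hq) (by rw [hr2]; exact hr) (by
    rw [hp3.natDegree_mul hq3, hp2, hq2, ← hpm.natDegree_mul hqm]
    exact hev1) (by
    rw [hp3.natDegree_mul hr3, hp2, hr2, ← hpm.natDegree_mul hrm]
    exact hev2) (by
    apply rE_inj D θ
    rw [map_pow, e1, rE_aeval, Polynomial.map_mul, hp1, hq1, rE_jR, hZ1]) (by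
    apply rE_inj D θ
    rw [map_pow, e2, rE_aeval, Polynomial.map_mul, hp1, hr1, rE_jR, hZ2])
  refine D.neg_mono _ _ ?_ key
  filter_upwards [hlg] with ω h
  exact h.symm.le

end Pool.Agent.H16U
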