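import Mathlib

/-!
# Sequences of polynomials of bounded degree
-/

set_option autoImplicit false

open Finset Filter Polynomial

namespace Pool.Agent.H16U

variable {F : Type} [Field F]

/-- the polynomial whose coefficients are the sequences of the coefficients -/
noncomputable def lf (d : ℕ) (P : ℕ → F[X]) : (ℕ → F)[X] :=
  ∑ i ∈ Finset.range (d + 1), C (fun t => (P t).coeff i) * X ^ i

theorem lf_coeff (d : ℕ) (P : ℕ → F[X]) (hP : ∀ t, (P t).natDegree ≤ d) (i : ℕ) :
    (lf d P).coeff i = fun t => (P t).coeff i := by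
  unfold lf
  simp only [finsetSum_coeff, coeff_C_mul, coeff_X_pow, mul_ite, mul_one, mul_zero]
  rw [Finset.sum_ite_eq (Finset.range (d + 1)) i]
  split_ifs with h
  · rfl
  · funext t
    rw [Finset.mem_range] at h
    exact (coeff_eq_zero_of_natDegree_lt ((hP t).trans_lt (by omega))).symm

theorem lf_map (d : ℕ) (P : ℕ → F[X]) (hP : ∀ t, (P t).natDegree ≤ d) (t : ℕ) :
    (lf d P).map (Pi.evalRingHom (fun _ => F) t) = P t := by
  ext i
  rw [coeff_map, lf_coeff d P hP]
  rfl

theorem seq_ext (p q : (ℕ → F)[X])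
    (h : ∀ t, p.map (Pi.evalRingHom (fun _ => F) t) = q.map (Pi.evalRingHom (fun _ => F) t)) :
    p = q := by
  ext i t
  have h1 := congrArg (fun P : F[X] => P.coeff i) (h t)
  simp only [coeff_map] at h1
  exact h1

theorem bezout_bdd (f : F[X]) (hf : f.Separable) (d : ℕ) (hd : f.natDegree ≤ d) :
    ∃ a b : F[X], a.natDegree ≤ 2 * d ∧ b.natDegree ≤ 2 * d ∧ a * f + b * derivative f = 1 := by
  obtain ⟨a0, b0, h0⟩ := hf
  have hf0 : f ≠ 0 := by
    rintro rfl
    simp at h0
  refine ⟨a0 + (b0 / f) * derivative f, b0 % f, ?_, ?_, ?_⟩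
  rotate_left
  · have : (b0 % f).degree < f.degree := EuclideanDomain.mod_lt b0 hf0
    have h1 := natDegree_le_natDegree this.le
    omega
  · have h1 := EuclideanDomain.div_add_mod b0 f
    calc _ = a0 * f + (f * (b0 / f) + b0 % f) * derivative f := by ring
      _ = 1 := by rw [h1, h0]
  · set a := a0 + (b0 / f) * derivative f with ha
    by_cases ha0 : a = 0
    · rw [ha0, natDegree_zero]; omega
    have h1 : a * f = 1 - (b0 % f) * derivative f := by
      have h1 := EuclideanDomain.div_add_mod b0 f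
      have h2 : a * f + (b0 % f) * derivative f =
          a0 * f + (f * (b0 / f) + b0 % f) * derivative f := by rw [ha]; ring
      rw [h1, h0] at h2
      exact eq_sub_of_add_eq h2
    have h2 : (a * f).natDegree ≤ 2 * d := by
      rw [h1]
      refine (natDegree_sub_le _ _).trans (max_le (by rw [natDegree_one]; omega) ?_)
      refine natDegree_mul_le.trans ?_
      have h3 : (b0 % f).degree < f.degree := EuclideanDomain.mod_lt b0 hf0
      have h4 := natDegree_le_natDegree h3.le
      have h5 := natDegree_derivative_le f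
      omega
    rw [natDegree_mul ha0 hf0] at h2
    omega

/-- separability of the limit -/
theorem sep_lim {S : Type} [CommRing S] (φ : (ℕ → F) →+* S) (d : ℕ) (P : ℕ → F[X])
    (hP : ∀ t, (P t).natDegree ≤ d) (hs : ∀ t, (P t).Separable) :
    ((lf d P).map φ).Separable := by
  choose a b ha hb hab using fun t => bezout_bdd (P t) (hs t) d (hP t)
  have h1 : lf (2 * d) a * lf d P + lf (2 * d) b * derivative (lf d P) = 1 := by
    apply seq_ext
    intro t
    rw [Polynomial.map_add, Polynomial.map_mul, Polynomial.map_mul, ← derivative_map,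
      lf_map _ _ ha, lf_map _ _ hP, lf_map _ _ hb, hab, Polynomial.map_one]
  refine ⟨(lf (2 * d) a).map φ, (lf (2 * d) b).map φ, ?_⟩
  rw [derivative_map, ← Polynomial.map_mul, ← Polynomial.map_mul, ← Polynomial.map_add, h1,
    Polynomial.map_one]

theorem lf_mul (d e : ℕ) (P Q : ℕ → F[X]) (hP : ∀ t, (P t).natDegree ≤ d)
    (hQ : ∀ t, (Q t).natDegree ≤ e) :
    lf (d + e) (fun t => P t * Q t) = lf d P * lf e Q := by
  apply seq_ext
  intro t
  rw [Polynomial.map_mul, lf_map _ _ hP, lf_map _ _ hQ, lf_map _ _ fun t =>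
    natDegree_mul_le.trans (add_le_add (hP t) (hQ t))]

theorem lf_monic {S : Type} [CommRing S] [Nontrivial S] (φ : (ℕ → F) →+* S) (d : ℕ) (P : ℕ → F[X])
    (hP : ∀ t, (P t).natDegree = d) (hm : ∀ t, (P t).Monic) :
    ((lf d P).map φ).Monic ∧ ((lf d P).map φ).natDegree = d := by
  have h1 : (lf d P).coeff d = 1 := by
    rw [lf_coeff d P fun t => (hP t).le]
    funext t
    have := hm t
    rw [Monic, leadingCoeff, hP t] at this
    exact this
  have h2 : ((lf d P).map φ).natDegree ≤ d := by
    rw [natDegree_le_iff_coeff_eq_zero]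
    intro m hm'
    rw [coeff_map, lf_coeff d P fun t => (hP t).le]
    have : (fun t => (P t).coeff m) = 0 := by
      funext t
      exact coeff_eq_zero_of_natDegree_lt (by rw [hP t]; exact hm')
    rw [this, map_zero]
  have h3 : ((lf d P).map φ).coeff d = 1 := by rw [coeff_map, h1, map_one]
  have h4 : ((lf d P).map φ).natDegree = d := by
    apply le_antisymm h2
    apply le_natDegree_of_ne_zero
    rw [h3]
    exact one_ne_zero
  refine ⟨?_, h4⟩
  rw [Monic, leadingCoeff, h4, h3]

theorem lf_eval {S : Type} [CommRing S] (φ : (ℕ → F) →+* S) (d : ℕ) (P : ℕ → F[X])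
    (hP : ∀ t, (P t).natDegree ≤ d) (x : ℕ → F) :
    ((lf d P).map φ).eval (φ x) = φ (fun t => (P t).eval (x t)) := by
  rw [eval_map, eval₂_hom]
  congr 1
  funext t
  have h1 : Pi.evalRingHom (fun _ => F) t ((lf d P).eval x) =
      ((lf d P).map (Pi.evalRingHom (fun _ => F) t)).eval (Pi.evalRingHom (fun _ => F) t x) := by
    rw [eval_map, eval₂_hom]
  rw [lf_map _ _ hP] at h1
  exact h1

end Pool.Agent.H16U
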