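import Mathlib
import Pool.Agent.N754.LT.ArD
import Pool.Agent.H16U.CoreE
import Pool.Agent.H16U.Lift

/-!
# The uniform bound for two square roots
-/

set_option autoImplicit false
set_option linter.unusedSectionVars false
set_option linter.overlappingInstances false

open Finset Filter Polynomial

namespace Pool.Agent.H16U

open NumberField IsDedekindDomain
open Pool.Agent.Y742.SF Pool.Agent.Y742.AR Pool.Agent.N754.LT Pool.Agent.N754.MT

/-- the coefficients have a common denominator at most `H` and size at most `H` -/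
structure Sm (K : Type) [Field K] [NumberField K] (H : ℝ) (P : K[X]) : Prop where
  den : ∃ b : ℕ, 0 < b ∧ (b : ℝ) ≤ H ∧ ∀ i, IsIntegral ℤ ((b : K) * P.coeff i)
  size : ∀ (φ : K →+* ℂ) (i : ℕ), ‖φ (P.coeff i)‖ ≤ H

section germs

variable {K : Type} [Field K] [NumberField K] [IsGalois ℚ K] (D : PD K) (𝒰 : Ultrafilter ℕ)
  (N : ℕ → ℝ) (hN : ∀ t, 1 ≤ N t)

theorem exists_PD0 (hi : ∃ z : K, z ^ 2 = -1) : ∃ D : PD K, D.s = 0 := by
  obtain ⟨D, -⟩ := exists_PD (K := K) hi ∅ Set.finite_empty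
  exact ⟨⟨D.ψ, D.cj, D.hcj, D.iK, D.hi, 0, Fin.elim0, fun a => a.elim0, fun _ => 1,
    fun _ v => v.elim0, 1, one_pos, Fin.elim0, fun v => v.elim0⟩, rfl⟩

theorem szd (hNt : Tendsto N (𝒰 : Filter ℕ) atTop) : Szd (DcA (D := D) (hN := hN) hNt) := by
  intro x
  obtain ⟨C, hC0, hC⟩ := ((mem_R0 hN _).1 (vl_mem x)).2
  refine ⟨C, hC0, fun ε hε => ?_⟩
  filter_upwards [hC] with t ht
  refine (Finset.sum_nonpos fun v _ => ?_).trans (by have := hN t; positivity)
  have h1 := ht v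
  have h2 : 0 ≤ C * N t := by have := hN t; positivity
  show max (Real.log (D.av v (rep (vl D 𝒰 N hN x) t))) 0 - C * N t ≤ 0
  rw [sub_nonpos]
  refine max_le ?_ h2
  rcases (D.av_nonneg v (rep (vl D 𝒰 N hN x) t)).eq_or_lt with h3 | h3
  · rw [← h3, Real.log_zero]; exact h2
  · exact (Real.log_le_iff_le_exp h3).2 h1

/-- a sequence of algebraic integers of bounded size -/
theorem mem_of (f : ℕ → K) (hf : ∀ t, IsIntegral ℤ (f t)) (C : ℝ) (hC : 0 ≤ C)
    (hb : ∀ᶠ t in (𝒰 : Filter ℕ), ∀ v, D.av v (f t) ≤ Real.exp (C * N t)) :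
    ∃ y : RA D 𝒰 N hN, vl D 𝒰 N hN y = gm 𝒰 f := by
  refine ⟨(⟨gm 𝒰 f, f, rfl, ⟨1, one_ne_zero, ?_⟩, C, hC, hb⟩ : R0 D 𝒰 N hN), rfl⟩
  refine Filter.Eventually.of_forall fun t => ?_
  have h1 := D.TInt_int ⟨f t, hf t⟩
  have h2 : ((1 : 𝓞 K) : K) * f t = f t := by
    rw [show ((1 : 𝓞 K) : K) = 1 from map_one _, one_mul]
  rw [h2]
  exact h1

/-- small elements -/
theorem small_of (hNt : Tendsto N (𝒰 : Filter ℕ) atTop) (y : RA D 𝒰 N hN) (f : ℕ → K)
    (hy : vl D 𝒰 N hN y = gm 𝒰 f)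
    (hb : ∀ ε : ℝ, 0 < ε → ∀ᶠ t in (𝒰 : Filter ℕ), ∀ v, D.av v (f t) ≤ Real.exp (ε * N t)) :
    y ∈ SS (DcA (D := D) (hN := hN) hNt) := by
  rw [mem_SS]
  intro ε hε
  set V : ℝ := ((Fintype.card ((K ≃ₐ[ℚ] K) ⊕ Fin D.s) : ℕ) : ℝ) with hV
  have hV0 : 0 ≤ V := Nat.cast_nonneg _
  filter_upwards [hb (ε / (V + 1)) (by positivity), rep_eq (vl D 𝒰 N hN y) f hy] with t h1 h2
  have h3 : ∀ v, max (Real.log (D.av v (rep (vl D 𝒰 N hN y) t))) 0 ≤ ε / (V + 1) * N t := by
    intro v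
    have h4 : 0 ≤ ε / (V + 1) * N t := by have := hN t; positivity
    rw [h2]
    refine max_le ?_ h4
    rcases (D.av_nonneg v (f t)).eq_or_lt with h5 | h5
    · rw [← h5, Real.log_zero]; exact h4
    · exact (Real.log_le_iff_le_exp h5).2 (h1 v)
  refine (Finset.sum_le_sum fun v _ => h3 v).trans ?_
  rw [Finset.sum_const, Finset.card_univ, nsmul_eq_mul, ← hV]
  have h6 : V * (ε / (V + 1) * N t) = (V / (V + 1)) * (ε * N t) := by ring
  rw [h6]
  have h7 : V / (V + 1) ≤ 1 := by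
    rw [div_le_one (by positivity)]; linarith
  have h8 : 0 ≤ ε * N t := by have := hN t; positivity
  nlinarith

end germs

/-- the uniform bound, for fixed degrees -/
theorem U0 (K : Type) [Field K] [NumberField K] [IsGalois ℚ K] (hi : ∃ z : K, z ^ 2 = -1)
    (dp dq dr : ℕ) (hdq : 0 < dq) (hdr : 0 < dr) (he1 : Even (dp + dq)) (he2 : Even (dp + dr)) :
    ∃ C : ℝ, 0 ≤ C ∧ ∀ H : ℝ, 1 ≤ H → ∀ p q r : K[X], p.Monic → q.Monic → r.Monic →
      (p * q * r).Separable → p.natDegree = dp → q.natDegree = dq → r.natDegree = dr →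
      Sm K H p → Sm K H q → Sm K H r →
      ∀ (x : ℤ) (u w : K), u ^ 2 = (p * q).eval (x : K) → w ^ 2 = (p * r).eval (x : K) →
        Real.log (max |(x : ℝ)| 1) ≤ C * (1 + Real.log H) := by
  classical
  by_contra hcon
  push Not at hcon
  choose H hH p q r hpm hqm hrm hsep hpd hqd hrd hps hqs hrs x u w hu hw hlt using
    fun t : ℕ => hcon ((t : ℝ) + 1) (by positivity)
  obtain ⟨D, hD⟩ := exists_PD0 (K := K) hi
  let 𝒰 : Ultrafilter ℕ := hyperfilter ℕ
  have hU : (𝒰 : Filter ℕ) ≤ atTop := Nat.hyperfilter_le_atTop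
  let N : ℕ → ℝ := fun t => Real.log (max |(x t : ℝ)| 1)
  have hlogH : ∀ t, 0 ≤ Real.log (H t) := fun t => Real.log_nonneg (hH t)
  have hN1 : ∀ t : ℕ, (t : ℝ) + 1 ≤ N t := fun t => by
    have h1 := hlt t
    have h2 := hlogH t
    have h3 : (0 : ℝ) ≤ t := Nat.cast_nonneg t
    have h4 : ((t : ℝ) + 1) * 1 ≤ ((t : ℝ) + 1) * (1 + Real.log (H t)) :=
      mul_le_mul_of_nonneg_left (by linarith) (by positivity)
    linarith
  have hN : ∀ t, 1 ≤ N t := fun t => by
    have h3 : (0 : ℝ) ≤ t := Nat.cast_nonneg t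
    linarith [hN1 t]
  have hNt : Tendsto N (𝒰 : Filter ℕ) atTop := by
    refine Tendsto.mono_left ?_ hU
    refine tendsto_atTop_mono hN1 ?_
    exact tendsto_atTop_add_const_right _ _ tendsto_natCast_atTop_atTop
  have hNH : ∀ ε : ℝ, 0 < ε → ∀ᶠ t in (𝒰 : Filter ℕ), Real.log (H t) ≤ ε * N t := by
    intro ε hε
    have h1 : ∀ᶠ t : ℕ in (𝒰 : Filter ℕ), 1 / ε ≤ (t : ℝ) + 1 :=
      (Tendsto.mono_left (tendsto_atTop_add_const_right _ _ tendsto_natCast_atTop_atTop)
        hU).eventually_ge_atTop _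
    filter_upwards [h1] with t ht
    have h2 := (hlt t).le
    rw [div_le_iff₀ hε] at ht
    have h3 : Real.log (H t) ≤ (ε * (t + 1)) * Real.log (H t) := by
      nlinarith [hlogH t]
    have h4 : ε * (((t : ℝ) + 1) * (1 + Real.log (H t))) ≤ ε * N t :=
      mul_le_mul_of_nonneg_left h2 hε.le
    have h5 : (0 : ℝ) ≤ t := Nat.cast_nonneg t
    nlinarith
  have hxabs : ∀ t, |(x t : ℝ)| = Real.exp (N t) := by
    intro t
    have h1 : 1 < max |(x t : ℝ)| 1 := by
      by_contra h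
      push Not at h
      have h2 := Real.log_le_log (by positivity) h
      rw [Real.log_one] at h2
      have := hN t
      simp only [N] at this
      linarith
    have h2 : max |(x t : ℝ)| 1 = |(x t : ℝ)| := by
      rcases max_choice |(x t : ℝ)| 1 with h | h
      · exact h
      · rw [h] at h1; exact absurd h1 (lt_irrefl _)
    simp only [N]
    rw [Real.exp_log (by linarith), h2]
  -- absolute values
  have hav : ∀ (v : (K ≃ₐ[ℚ] K) ⊕ Fin D.s), ∃ φ : K →+* ℂ, ∀ y, D.av v y = ‖φ y‖ := by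
    rintro (σ | v)
    · exact ⟨D.ψ.comp (σ : K →+* K), fun y => rfl⟩
    · exact absurd v.2 (by omega)
  have havx : ∀ t v, D.av v ((x t : ℤ) : K) = Real.exp (N t) := by
    intro t v
    obtain ⟨φ, hφ⟩ := hav v
    rw [hφ, map_intCast, Complex.norm_intCast, hxabs]
  have havn : ∀ (n : ℕ) v, D.av v (n : K) = n := by
    intro n v
    obtain ⟨φ, hφ⟩ := hav v
    rw [hφ, map_natCast, Complex.norm_natCast]
  -- polynomial growth in `H` is small
  have hsmall : ∀ (c : ℝ) (m : ℕ), 0 < c → ∀ ε : ℝ, 0 < ε → ∀ᶠ t in (𝒰 : Filter ℕ),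
      c * H t ^ m ≤ Real.exp (ε * N t) := by
    intro c m hc ε hε
    filter_upwards [hNH (ε / (2 * (m + 1))) (by positivity),
      hNt.eventually_ge_atTop (Real.log c / (ε / 2))] with t h1 h2
    have hH0 : 0 < H t := lt_of_lt_of_le one_pos (hH t)
    rw [← Real.log_le_iff_le_exp (by positivity), Real.log_mul hc.ne' (by positivity),
      Real.log_pow]
    rw [div_le_iff₀ (by positivity)] at h2
    have h3 : (m : ℝ) * Real.log (H t) ≤ ε / 2 * N t := by
      have h4 : (m : ℝ) * Real.log (H t) ≤ (m + 1) * (ε / (2 * (m + 1)) * N t) :=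
        mul_le_mul (by linarith) h1 (hlogH t) (by positivity)
      refine h4.trans (le_of_eq ?_)
      field_simp
    linarith
  have hbdd : ∀ (c : ℝ) (m l : ℕ), 0 < c → ∃ C : ℝ, 0 ≤ C ∧ ∀ᶠ t in (𝒰 : Filter ℕ),
      c * H t ^ m * Real.exp (N t) ^ l ≤ Real.exp (C * N t) := by
    intro c m l hc
    refine ⟨l + 1, by positivity, ?_⟩
    filter_upwards [hsmall c m hc 1 one_pos] with t h1
    rw [add_mul, Real.exp_add, mul_comm (Real.exp _)]
    refine mul_le_mul h1 (le_of_eq ?_) (by positivity) (Real.exp_pos _).le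
    rw [← Real.exp_nat_mul]
  -- the fields
  let E : Type := BA K 𝒰
  let DC := DcA (D := D) (hN := hN) hNt
  let θ : RA D 𝒰 N hN →+* E := (incA D 𝒰 N hN : RA D 𝒰 N hN →+* BA K 𝒰)
  have hθ : Function.Injective θ := incA_inj D 𝒰 N hN
  have hθv : ∀ y, θ y = vl D 𝒰 N hN y := fun y => rfl
  let γ : (ℕ → K) →+* E := gm 𝒰
  -- coefficients
  have hcoef : ∀ (P : ℕ → K[X]) (d : ℕ), (∀ t, (P t).natDegree ≤ d) → (∀ t, Sm K (H t) (P t)) →
      ∀ i, ((lf d P).map γ).coeff i ∈ kF DC θ hθ := by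
    intro P d hPd hP i
    rw [coeff_map, lf_coeff d P hPd]
    choose b hb0 hbH hbi using fun t => (hP t).den
    have s1 : ∀ᶠ t in (𝒰 : Filter ℕ), ∀ v, D.av v ((b t : K) * (P t).coeff i) ≤
        1 * H t ^ 2 := by
      refine Filter.Eventually.of_forall fun t v => ?_
      obtain ⟨φ, hφ⟩ := hav v
      rw [D.av_mul, havn, hφ, one_mul, sq]
      exact mul_le_mul (hbH t) ((hP t).size φ i) (norm_nonneg _) (by linarith [hH t])
    have s2 : ∀ᶠ t in (𝒰 : Filter ℕ), ∀ v, D.av v (b t : K) ≤ 1 * H t ^ 1 := by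
      refine Filter.Eventually.of_forall fun t v => ?_
      rw [havn, one_mul, pow_one]
      exact hbH t
    have b1 : ∀ ε : ℝ, 0 < ε → ∀ᶠ t in (𝒰 : Filter ℕ), ∀ v,
        D.av v ((b t : K) * (P t).coeff i) ≤ Real.exp (ε * N t) := by
      intro ε hε
      filter_upwards [s1, hsmall 1 2 one_pos ε hε] with t h1 h2 v
      exact (h1 v).trans h2
    have b2 : ∀ ε : ℝ, 0 < ε → ∀ᶠ t in (𝒰 : Filter ℕ), ∀ v,
        D.av v (b t : K) ≤ Real.exp (ε * N t) := by
      intro ε hε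
      filter_upwards [s2, hsmall 1 1 one_pos ε hε] with t h1 h2 v
      exact (h1 v).trans h2
    obtain ⟨y1, hy1⟩ := mem_of D 𝒰 N hN (fun t => (b t : K) * (P t).coeff i) (fun t => hbi t i) 1
      zero_le_one (b1 1 one_pos)
    obtain ⟨y2, hy2⟩ := mem_of D 𝒰 N hN (fun t => (b t : K)) (fun t => isIntegral_natCast _) 1
      zero_le_one (b2 1 one_pos)
    refine ⟨y1, small_of D 𝒰 N hN hNt y1 _ hy1 b1, y2, small_of D 𝒰 N hN hNt y2 _ hy2 b2, ?_, ?_⟩
    · rintro rfl
      rw [vl_zero] at hy2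
      have h1 := (gm_eq 𝒰 (fun _ => (0 : K)) (fun t => (b t : K))).1 (by
        rw [← hy2]; exact map_zero _)
      obtain ⟨t, ht⟩ := h1.exists
      exact (hb0 t).ne' (by exact_mod_cast ht.symm)
    · rw [hθv, hθv, hy1, hy2]
      show gm 𝒰 (fun t => (P t).coeff i) * gm 𝒰 (fun t => (b t : K)) = _
      rw [← map_mul]
      congr 1
      funext t
      exact mul_comm _ _
  -- the square roots
  have hroot : ∀ (P Q : ℕ → K[X]) (d e : ℕ), (∀ t, (P t).natDegree ≤ d) →
      (∀ t, (Q t).natDegree ≤ e) → (∀ t, Sm K (H t) (P t)) → (∀ t, Sm K (H t) (Q t)) →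
      ∀ z : ℕ → K, (∀ t, z t ^ 2 = (P t * Q t).eval (x t : K)) → γ z ∈ rF DC θ := by
    intro P Q d e hPd hQd hP hQ z hz
    choose b hb0 hbH hbi using fun t => (hP t).den
    choose b' hb0' hbH' hbi' using fun t => (hQ t).den
    have hev : ∀ (P : K[X]) (d : ℕ) (b : ℕ) (x : ℤ), P.natDegree ≤ d →
        (∀ i, IsIntegral ℤ ((b : K) * P.coeff i)) → IsIntegral ℤ ((b : K) * P.eval (x : K)) := by
      intro P d b x hPd hb
      rw [eval_eq_sum_range' (n := d + 1) (by omega), Finset.mul_sum]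
      refine IsIntegral.sum _ fun i _ => ?_
      rw [← mul_assoc]
      exact (hb i).mul ((isIntegral_intCast _).pow i)
    have hsz : ∀ (P : K[X]) (d : ℕ) (t : ℕ), P.natDegree ≤ d → Sm K (H t) P → ∀ v,
        D.av v (P.eval (x t : K)) ≤ ((d : ℝ) + 1) * H t * Real.exp (N t) ^ d := by
      intro P d t hPd hPs v
      obtain ⟨φ, hφ⟩ := hav v
      rw [eval_eq_sum_range' (n := d + 1) (by omega)]
      refine (D.av_sum_le v _ _).trans ?_
      have h1 : ∀ i ∈ Finset.range (d + 1), D.av v (P.coeff i * (x t : K) ^ i) ≤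
          H t * Real.exp (N t) ^ d := by
        intro i hi
        have h2 : D.av v ((x t : K) ^ i) = Real.exp (N t) ^ i := by
          rw [← havx t v, hφ, hφ, map_pow, norm_pow]
        rw [D.av_mul, h2, hφ]
        refine mul_le_mul (hPs.size φ i) (pow_le_pow_right₀ ?_ (by
          rw [Finset.mem_range] at hi; omega)) (by positivity) (by linarith [hH t])
        exact Real.one_le_exp (by linarith [hN t])
      refine (Finset.sum_le_sum h1).trans (le_of_eq ?_)
      rw [Finset.sum_const, Finset.card_range, nsmul_eq_mul]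
      push_cast
      ring
    have hzint : ∀ t, IsIntegral ℤ (((b t * b' t : ℕ) : K) * z t) := by
      intro t
      have h1 : (((b t * b' t : ℕ) : K) * z t) ^ 2 = ((b t * b' t : ℕ) : K) *
          (((b t : K) * (P t).eval (x t : K)) * ((b' t : K) * (Q t).eval (x t : K))) := by
        rw [mul_pow, hz t, eval_mul]
        push_cast
        ring
      have h2 : IsIntegral ℤ ((((b t * b' t : ℕ) : K) * z t) ^ 2) := by
        rw [h1]
        exact (isIntegral_natCast _).mul ((hev _ d _ _ (hPd t) (hbi t)).mul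
          (hev _ e _ _ (hQd t) (hbi' t)))
      exact IsIntegral.of_pow two_pos h2
    obtain ⟨C, hC0, hC⟩ := hbdd (((d : ℝ) + 1) * ((e : ℝ) + 1)) 6 (d + e) (by positivity)
    obtain ⟨y1, hy1⟩ := mem_of D 𝒰 N hN (fun t => ((b t * b' t : ℕ) : K) * z t) hzint C hC0 (by
      filter_upwards [hC] with t ht v
      refine le_trans ?_ ht
      have hH1 := hH t
      have hbb : ((b t * b' t : ℕ) : ℝ) ≤ H t ^ 2 := by
        push_cast
        rw [sq]
        exact mul_le_mul (hbH t) (hbH' t) (Nat.cast_nonneg _) (by linarith)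
      have h1 : D.av v (((b t * b' t : ℕ) : K) * z t) ^ 2 ≤
          (H t ^ 2) ^ 2 * ((((d : ℝ) + 1) * H t * Real.exp (N t) ^ d) *
            (((e : ℝ) + 1) * H t * Real.exp (N t) ^ e)) := by
        have h2 : D.av v (z t) ^ 2 = D.av v ((P t).eval (x t : K)) *
            D.av v ((Q t).eval (x t : K)) := by
          rw [sq, ← D.av_mul, ← D.av_mul, ← eval_mul, ← hz t, sq]
        rw [D.av_mul, havn, mul_pow, h2]
        refine mul_le_mul (pow_le_pow_left₀ (Nat.cast_nonneg _) hbb 2)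
          (mul_le_mul (hsz _ d t (hPd t) (hP t) v) (hsz _ e t (hQd t) (hQ t) v)
            (D.av_nonneg _ _) (by positivity)) (mul_nonneg (D.av_nonneg _ _) (D.av_nonneg _ _))
          (by positivity)
      set T : ℝ := (((d : ℝ) + 1) * ((e : ℝ) + 1)) * H t ^ 6 * Real.exp (N t) ^ (d + e) with hT
      have hT1 : 1 ≤ T := by
        have g1 : (1 : ℝ) ≤ ((d : ℝ) + 1) * ((e : ℝ) + 1) := by
          have : (0 : ℝ) ≤ d := Nat.cast_nonneg d
          have : (0 : ℝ) ≤ e := Nat.cast_nonneg e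
          nlinarith [mul_nonneg (Nat.cast_nonneg (α := ℝ) d) (Nat.cast_nonneg (α := ℝ) e)]
        have g2 : (1 : ℝ) ≤ H t ^ 6 := one_le_pow₀ hH1
        have g3 : (1 : ℝ) ≤ Real.exp (N t) ^ (d + e) :=
          one_le_pow₀ (Real.one_le_exp (by linarith [hN t]))
        exact one_le_mul_of_one_le_of_one_le (one_le_mul_of_one_le_of_one_le g1 g2) g3
      have h3 : D.av v (((b t * b' t : ℕ) : K) * z t) ^ 2 ≤ T := by
        refine h1.trans (le_of_eq ?_)
        rw [hT, pow_add]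
        ring
      by_contra hc
      push Not at hc
      have h4 : T ^ 2 < D.av v (((b t * b' t : ℕ) : K) * z t) ^ 2 :=
        pow_lt_pow_left₀ hc (by linarith) two_ne_zero
      nlinarith)
    have b2 : ∀ ε : ℝ, 0 < ε → ∀ᶠ t in (𝒰 : Filter ℕ), ∀ v,
        D.av v ((b t * b' t : ℕ) : K) ≤ Real.exp (ε * N t) := by
      intro ε hε
      filter_upwards [hsmall 1 2 one_pos ε hε] with t h2 v
      refine le_trans ?_ h2
      rw [havn, one_mul, sq]
      push_cast
      exact mul_le_mul (hbH t) (hbH' t) (Nat.cast_nonneg _) (by linarith [hH t])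
    obtain ⟨y2, hy2⟩ := mem_of D 𝒰 N hN (fun t => ((b t * b' t : ℕ) : K))
      (fun t => isIntegral_natCast _) 1 zero_le_one (b2 1 one_pos)
    refine ⟨y1, y2, small_of D 𝒰 N hN hNt y2 _ hy2 b2, ?_, ?_⟩
    · rintro rfl
      rw [vl_zero] at hy2
      have h1 := (gm_eq 𝒰 (fun _ => (0 : K)) (fun t => ((b t * b' t : ℕ) : K))).1 (by
        rw [← hy2]; exact map_zero _)
      obtain ⟨t, ht⟩ := h1.exists
      exact (mul_pos (hb0 t) (hb0' t)).ne' (by exact_mod_cast ht.symm)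
    · rw [hθv, hθv, hy1, hy2]
      show gm 𝒰 z * gm 𝒰 (fun t => ((b t * b' t : ℕ) : K)) = _
      rw [← map_mul]
      congr 1
      funext t
      exact mul_comm _ _
  -- the large element
  obtain ⟨X, hX⟩ := mem_of D 𝒰 N hN (fun t => ((x t : ℤ) : K)) (fun t => isIntegral_intCast _) 1
    zero_le_one (Filter.Eventually.of_forall fun t v => by rw [havx, one_mul])
  have hXlg : ∀ᶠ ω in DC.ev, DC.A X ω = Real.exp (N ω.2) := by
    have h1 := rep_eq (vl D 𝒰 N hN X) _ hX
    refine evA.2 ?_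
    filter_upwards [h1] with t ht v
    show D.av v (rep (vl D 𝒰 N hN X) t) = _
    rw [ht, havx]
  have hsz := szd D 𝒰 N hN hNt
  have c0 : CharZero K := inferInstance
  have h2E : (2 : E) ≠ 0 := by
    intro h
    have h1 : gm 𝒰 (fun _ => (2 : K)) = gm 𝒰 (fun _ => (0 : K)) := by
      have e1 : gm 𝒰 (fun _ => (2 : K)) = (2 : E) := map_ofNat (gm 𝒰) 2
      have e2 : gm 𝒰 (fun _ => (0 : K)) = (0 : E) := map_zero (gm 𝒰)
      rw [e1, e2, h]
    obtain ⟨t, ht⟩ := ((gm_eq 𝒰 _ _).1 h1).exists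
    exact two_ne_zero ht
  obtain ⟨m1, n1⟩ := lf_monic γ dp p hpd hpm
  obtain ⟨m2, n2⟩ := lf_monic γ dq q hqd hqm
  obtain ⟨m3, n3⟩ := lf_monic γ dr r hrd hrm
  have hθX : θ X = γ (fun t => ((x t : ℤ) : K)) := hX
  have ev1 : ((lf dp p).map γ * (lf dq q).map γ).eval (θ X) = γ u ^ 2 := by
    rw [eval_mul, hθX, lf_eval γ dp p (fun t => (hpd t).le), lf_eval γ dq q (fun t => (hqd t).le),
      ← map_mul, ← map_pow]
    congr 1
    funext t
    show (p t).eval _ * (q t).eval _ = u t ^ 2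
    rw [hu t, eval_mul]
  have ev2 : ((lf dp p).map γ * (lf dr r).map γ).eval (θ X) = γ w ^ 2 := by
    rw [eval_mul, hθX, lf_eval γ dp p (fun t => (hpd t).le), lf_eval γ dr r (fun t => (hrd t).le),
      ← map_mul, ← map_pow]
    congr 1
    funext t
    show (p t).eval _ * (r t).eval _ = w t ^ 2
    rw [hw t, eval_mul]
  have hsepE : ((lf dp p).map γ * (lf dq q).map γ * (lf dr r).map γ).Separable := by
    rw [← Polynomial.map_mul, ← Polynomial.map_mul, ← lf_mul dp dq p q (fun t => (hpd t).le)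
      (fun t => (hqd t).le), ← lf_mul (dp + dq) dr _ r (fun t => natDegree_mul_le.trans
        (by rw [hpd, hqd])) (fun t => (hrd t).le)]
    exact sep_lim γ _ _ (fun t => by
      have := natDegree_mul_le (p := p t * q t) (q := r t)
      have h2 := natDegree_mul_le (p := p t) (q := q t)
      rw [hpd, hqd] at h2
      rw [hrd] at this
      omega) hsep
  have key := coreE DC θ hθ hsz h2E X (by
    filter_upwards [hXlg] with ω h
    rw [h]
    exact Real.one_le_exp (by linarith [hN ω.2])) (γ u) (γ w)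
    (hroot p q dp dq (fun t => (hpd t).le) (fun t => (hqd t).le) hps hqs u hu)
    (hroot p r dp dr (fun t => (hpd t).le) (fun t => (hrd t).le) hps hrs w hw)
    ((lf dp p).map γ) ((lf dq q).map γ) ((lf dr r).map γ) m1 m2 m3
    (hcoef p dp (fun t => (hpd t).le) hps) (hcoef q dq (fun t => (hqd t).le) hqs)
    (hcoef r dr (fun t => (hrd t).le) hrs) hsepE (by rw [n2]; exact hdq) (by rw [n3]; exact hdr)
    (by rw [m1.natDegree_mul m2, n1, n2]; exact he1) (by rw [m1.natDegree_mul m3, n1, n3]; exact he2)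
    ev1.symm ev2.symm
  refine not_neg_oneA (D := D) (hN := hN) hNt (DC.neg_mono _ _ ?_ key)
  filter_upwards [hXlg] with ω h
  show N ω.2 ≤ Real.log (DC.A X ω)
  rw [h, Real.log_exp]

end Pool.Agent.H16U
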