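import Mathlib
import Pool.Agent.H16U.Ger

/-!
# Monic factors of integral polynomials over number fields
-/

set_option autoImplicit false

open Finset Filter Polynomial NumberField

namespace Pool.Agent.H16U

theorem root_bound (f : ℤ[X]) (hf0 : f ≠ 0) (M : ℝ) (hM : 1 ≤ M)
    (hc : ∀ i, |(f.coeff i : ℝ)| ≤ M) (z : ℂ) (hz : (f.map (Int.castRingHom ℂ)).IsRoot z) :
    ‖z‖ ≤ 1 + M := by
  have hinj : Function.Injective (Int.castRingHom ℂ) := Int.cast_injective
  have h0 : f.map (Int.castRingHom ℂ) ≠ 0 := (Polynomial.map_ne_zero_iff hinj).2 hf0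
  have h1 := hz.norm_lt_cauchyBound h0
  have h2 : (cauchyBound (f.map (Int.castRingHom ℂ)) : ℝ) ≤ M + 1 := by
    unfold cauchyBound
    push_cast
    refine add_le_add ?_ le_rfl
    have hl : (1 : ℝ) ≤ ‖(f.map (Int.castRingHom ℂ)).leadingCoeff‖ := by
      rw [leadingCoeff_map_of_injective hinj]
      simp only [eq_intCast, Complex.norm_intCast]
      have : (1 : ℤ) ≤ |f.leadingCoeff| := Int.one_le_abs (leadingCoeff_ne_zero.2 hf0)
      exact_mod_cast this
    rw [div_le_iff₀ (by linarith)]
    have hs : (((Finset.range (f.map (Int.castRingHom ℂ)).natDegree).sup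
        fun x => ‖(f.map (Int.castRingHom ℂ)).coeff x‖₊ : NNReal) : ℝ) ≤ M := by
      have hM0 : 0 ≤ M := by linarith
      have : ((Finset.range (f.map (Int.castRingHom ℂ)).natDegree).sup
        fun x => ‖(f.map (Int.castRingHom ℂ)).coeff x‖₊) ≤ Real.toNNReal M := by
        refine Finset.sup_le fun i _ => ?_
        rw [← norm_toNNReal]
        refine Real.toNNReal_le_toNNReal ?_
        rw [coeff_map, eq_intCast, Complex.norm_intCast]
        exact hc i
      have h5 := NNReal.coe_le_coe.2 this
      rwa [Real.coe_toNNReal M hM0] at h5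
    nlinarith
  have h3 : ‖z‖ < cauchyBound (f.map (Int.castRingHom ℂ)) := by exact_mod_cast h1
  linarith

theorem sm_of_dvd (K : Type) [Field K] [NumberField K] (f : ℤ[X]) (hf0 : f ≠ 0) (M : ℝ)
    (hM : 1 ≤ M) (hc : ∀ i, |(f.coeff i : ℝ)| ≤ M) (d : ℕ) (hd : f.natDegree ≤ d) (h : K[X])
    (hh : h.Monic) (hdvd : h ∣ f.map (Int.castRingHom K)) : Sm K ((4 * M) ^ d) h := by
  have hinj : Function.Injective (Int.castRingHom K) := Int.cast_injective
  have hf1 : f.map (Int.castRingHom K) ≠ 0 := (Polynomial.map_ne_zero_iff hinj).2 hf0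
  have hn : h.natDegree ≤ d := by
    have := natDegree_le_of_dvd hdvd hf1
    rw [natDegree_map_eq_of_injective hinj] at this
    omega
  set a : ℤ := f.leadingCoeff with ha
  have ha0 : a ≠ 0 := leadingCoeff_ne_zero.2 hf0
  have haK : (a : K) ≠ 0 := by exact_mod_cast ha0
  have haM : ((a.natAbs : ℕ) : ℝ) ≤ M := by
    rw [Nat.cast_natAbs]
    have := hc f.natDegree
    push_cast
    exact this
  have h4M : 1 ≤ 4 * M := by linarith
  refine ⟨⟨a.natAbs ^ h.natDegree, by positivity, ?_, ?_⟩, ?_⟩
  · push_cast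
    calc ((a.natAbs : ℕ) : ℝ) ^ h.natDegree ≤ (4 * M) ^ h.natDegree :=
          pow_le_pow_left₀ (Nat.cast_nonneg _) (by linarith) _
      _ ≤ (4 * M) ^ d := pow_le_pow_right₀ h4M hn
  · -- integrality
    have e1 : h.scaleRoots (a : K) ∣ (f.map (Int.castRingHom K)).scaleRoots (a : K) :=
      scaleRoots_dvd _ _ hdvd
    have e2 : (f.map (Int.castRingHom K)).scaleRoots (a : K) =
        (f.integralNormalization.map (Int.castRingHom K)) * C (a : K) := by
      have h1 := congrArg (Polynomial.map (Int.castRingHom K))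
        (integralNormalization_mul_C_leadingCoeff f)
      rw [Polynomial.map_mul, map_scaleRoots _ _ _ (by
        rw [eq_intCast]; exact_mod_cast leadingCoeff_ne_zero.2 hf0)] at h1
      rw [← ha] at h1
      simpa using h1.symm
    have e3 : h.scaleRoots (a : K) ∣ f.integralNormalization.map (Int.castRingHom K) := by
      rw [e2] at e1
      exact (IsUnit.dvd_mul_right (isUnit_C.2 (Ne.isUnit haK))).1 e1
    have e4 : f.integralNormalization.map (Int.castRingHom K) =
        (f.integralNormalization.map (algebraMap ℤ (𝓞 K))).map (algebraMap (𝓞 K) K) := by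
      rw [Polynomial.map_map]
      congr 1
    rw [e4] at e3
    have hmon : (f.integralNormalization.map (algebraMap ℤ (𝓞 K))).Monic :=
      (monic_integralNormalization hf0).map _
    obtain ⟨g', hg'⟩ := IsIntegrallyClosed.eq_map_mul_C_of_dvd K hmon e3
    have hlc : (h.scaleRoots (a : K)).leadingCoeff = 1 := (monic_scaleRoots_iff (a : K)).2 hh
    rw [hlc, C_1, mul_one] at hg'
    intro i
    have e5 : IsIntegral ℤ ((h.scaleRoots (a : K)).coeff i) := by
      rw [← hg', coeff_map]
      exact RingOfIntegers.isIntegral_coe _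
    rw [coeff_scaleRoots] at e5
    rcases Nat.lt_or_ge h.natDegree i with hi | hi
    · rw [coeff_eq_zero_of_natDegree_lt hi, mul_zero]
      exact isIntegral_zero
    · obtain ⟨ε, hε, hb⟩ : ∃ ε : K, IsIntegral ℤ ε ∧ ((a.natAbs : ℕ) : K) = ε * a := by
        rcases Int.natAbs_eq a with h1 | h1
        · refine ⟨1, isIntegral_one, ?_⟩
          rw [one_mul]
          conv_rhs => rw [h1]
          rw [Int.cast_natCast]
        · refine ⟨-1, isIntegral_one.neg, ?_⟩
          conv_rhs => rw [h1]
          rw [Int.cast_neg, Int.cast_natCast]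
          ring
      have e6 : ((a.natAbs ^ h.natDegree : ℕ) : K) * h.coeff i =
          ε ^ h.natDegree * ((a : K) ^ i * (h.coeff i * (a : K) ^ (h.natDegree - i))) := by
        have h1 : (a : K) ^ i * (a : K) ^ (h.natDegree - i) = (a : K) ^ h.natDegree := by
          rw [← pow_add]; congr 1; omega
        rw [Nat.cast_pow, hb, mul_pow, ← h1]
        ring
      rw [e6]
      exact IsIntegral.mul (hε.pow _) (IsIntegral.mul ((isIntegral_intCast _).pow _) e5)
  · intro φ i
    have h1 := coeff_bdd_of_roots_le (B := 1 + M) (d := d) φ hh (IsAlgClosed.splits _) hn (by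
      intro z hz
      refine root_bound f hf0 M hM hc z ?_
      have h2 : (h.map φ).IsRoot z := isRoot_of_mem_roots hz
      have h3 : h.map φ ∣ f.map (Int.castRingHom ℂ) := by
        have h4 := Polynomial.map_dvd φ hdvd
        rw [Polynomial.map_map] at h4
        convert h4
        exact RingHom.ext_int _ _
      exact h2.dvd h3) i
    rw [coeff_map] at h1
    refine h1.trans ?_
    rw [max_eq_left (by linarith : (1 : ℝ) ≤ 1 + M)]
    have h2 : (d.choose (d / 2) : ℝ) ≤ 2 ^ d := by exact_mod_cast Nat.choose_le_two_pow d (d / 2)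
    calc (1 + M) ^ d * (d.choose (d / 2) : ℝ) ≤ (2 * M) ^ d * 2 ^ d :=
          mul_le_mul (pow_le_pow_left₀ (by linarith) (by linarith) _) h2 (Nat.cast_nonneg _)
            (by positivity)
      _ = (4 * M) ^ d := by rw [← mul_pow]; congr 1; ring

end Pool.Agent.H16U
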