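import Mathlib
import Pool.Agent.H16U.Fac

/-!
# Three factors with values in finitely many square classes
-/

set_option autoImplicit false

open Finset Filter Polynomial NumberField

namespace Pool.Agent.H16U

open IntermediateField in
/-- a number field is contained in one which is Galois over `ℚ`, contains a square root of `-1` and
square roots of finitely many given elements -/
theorem sqf (κ : Type) [Field κ] [NumberField κ] (T : Finset κ) :
    ∃ (K : Type) (_ : Field K) (_ : NumberField K) (_ : Algebra κ K), IsGalois ℚ K ∧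
      (∃ z : K, z ^ 2 = -1) ∧ ∀ t ∈ T, ∃ z : K, z ^ 2 = algebraMap κ K t := by
  classical
  have : Algebra.IsAlgebraic ℚ (AlgebraicClosure κ) :=
    Algebra.IsAlgebraic.trans ℚ κ (AlgebraicClosure κ)
  have : IsAlgClosure ℚ (AlgebraicClosure κ) := ⟨inferInstance, inferInstance⟩
  have : Normal ℚ (AlgebraicClosure κ) := IsAlgClosure.normal ℚ (AlgebraicClosure κ)
  choose s hs using fun t : κ => IsAlgClosed.exists_pow_nat_eq
    (algebraMap κ (AlgebraicClosure κ) t) (by norm_num : 0 < 2)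
  let A : Finset (AlgebraicClosure κ) := (insert (-1 : κ) T).image s
  let f : κ →ₐ[ℚ] AlgebraicClosure κ := IsScalarTower.toAlgHom ℚ κ (AlgebraicClosure κ)
  have h1 : FiniteDimensional ℚ f.fieldRange :=
    (AlgEquiv.ofInjectiveField f).toLinearEquiv.finiteDimensional
  have h2 : FiniteDimensional ℚ (adjoin ℚ (A : Set (AlgebraicClosure κ))) :=
    finiteDimensional_adjoin fun x _ => Algebra.IsIntegral.isIntegral x
  let F : IntermediateField ℚ (AlgebraicClosure κ) :=
    f.fieldRange ⊔ adjoin ℚ (A : Set (AlgebraicClosure κ))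
  have h3 : FiniteDimensional ℚ F := finiteDimensional_sup _ _
  let K : IntermediateField ℚ (AlgebraicClosure κ) := normalClosure ℚ F (AlgebraicClosure κ)
  have hFK : F ≤ K := le_normalClosure F
  have h4 : FiniteDimensional ℚ K := normalClosure.is_finiteDimensional ℚ F (AlgebraicClosure κ)
  have h5 : Normal ℚ K := normalClosure.normal ℚ F (AlgebraicClosure κ)
  have h6 : NumberField K := ⟨⟩
  let g : κ →ₐ[ℚ] K.toSubalgebra := f.codRestrict K.toSubalgebra fun x =>
    hFK ((le_sup_left : f.fieldRange ≤ F) ⟨x, rfl⟩)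
  have hsK : ∀ t ∈ insert (-1 : κ) T, s t ∈ K := fun t ht =>
    hFK ((le_sup_right : adjoin ℚ (A : Set (AlgebraicClosure κ)) ≤ F)
      (subset_adjoin ℚ _ (by
        rw [Finset.mem_coe]
        exact Finset.mem_image_of_mem s ht)))
  refine ⟨K, inferInstance, inferInstance, (g : κ →+* K).toAlgebra, ⟨⟩, ?_, ?_⟩
  · refine ⟨⟨s (-1), hsK _ (Finset.mem_insert_self _ _)⟩, Subtype.ext ?_⟩
    show s (-1) ^ 2 = -1
    rw [hs, map_neg, map_one]
  · intro t ht
    refine ⟨⟨s t, hsK _ (Finset.mem_insert_of_mem ht)⟩, Subtype.ext ?_⟩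
    show s t ^ 2 = algebraMap κ (AlgebraicClosure κ) t
    rw [hs]

/-- the uniform bound, all degrees -/
theorem UM (K : Type) [Field K] [NumberField K] [IsGalois ℚ K] (hi : ∃ z : K, z ^ 2 = -1)
    (d : ℕ) :
    ∃ C : ℝ, 0 ≤ C ∧ ∀ f : ℤ[X], f.natDegree ≤ d → (f.map (Int.castRingHom ℚ)).Separable →
      ∀ M : ℝ, 1 ≤ M → (∀ i, |(f.coeff i : ℝ)| ≤ M) → ∀ p q r : K[X], p.Monic → q.Monic →
      r.Monic → p * q * r ∣ f.map (Int.castRingHom K) → 0 < q.natDegree → 0 < r.natDegree →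
      Even (p * q).natDegree → Even (p * r).natDegree →
      ∀ (x : ℤ), (∃ u : K, u ^ 2 = (p * q).eval (x : K)) →
        (∃ w : K, w ^ 2 = (p * r).eval (x : K)) →
        Real.log (max |(x : ℝ)| 1) ≤ C * (1 + Real.log M) := by
  classical
  have h0 := fun (a : Fin (d + 1) × Fin (d + 1) × Fin (d + 1)) (h : 0 < (a.2.1 : ℕ) ∧
    0 < (a.2.2 : ℕ) ∧ Even ((a.1 : ℕ) + a.2.1) ∧ Even ((a.1 : ℕ) + a.2.2)) =>
    U0 K hi a.1 a.2.1 a.2.2 h.1 h.2.1 h.2.2.1 h.2.2.2
  choose C0 hC0 hC0' using h0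
  let Cf : Fin (d + 1) × Fin (d + 1) × Fin (d + 1) → ℝ := fun a =>
    if h : 0 < (a.2.1 : ℕ) ∧ 0 < (a.2.2 : ℕ) ∧ Even ((a.1 : ℕ) + a.2.1) ∧
      Even ((a.1 : ℕ) + a.2.2) then C0 a h else 0
  have hCf : ∀ a, 0 ≤ Cf a := by
    intro a
    simp only [Cf]
    split_ifs with h
    · exact hC0 a h
    · exact le_rfl
  have hsum : 0 ≤ ∑ a, Cf a := Finset.sum_nonneg fun a _ => hCf a
  refine ⟨(∑ a, Cf a) * (1 + 2 * d), mul_nonneg hsum (by positivity), ?_⟩
  intro f hfd hsep M hM hc p q r hp hq hr hdvd hq0 hr0 he1 he2 x ⟨u, hu⟩ ⟨w, hw⟩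
  have hf0 : f ≠ 0 := by
    rintro rfl
    rw [Polynomial.map_zero] at hsep
    exact not_separable_zero hsep
  have hinj : Function.Injective (Int.castRingHom K) := Int.cast_injective
  have hf1 : f.map (Int.castRingHom K) ≠ 0 := (Polynomial.map_ne_zero_iff hinj).2 hf0
  have hpd : p ∣ f.map (Int.castRingHom K) := (Dvd.intro _ (by ring : p * (q * r) = p * q * r)).trans hdvd
  have hqd : q ∣ f.map (Int.castRingHom K) := (Dvd.intro _ (by ring : q * (p * r) = p * q * r)).trans hdvd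
  have hrd : r ∣ f.map (Int.castRingHom K) := (Dvd.intro _ (by ring : r * (p * q) = p * q * r)).trans hdvd
  have hdeg : ∀ s : K[X], s ∣ f.map (Int.castRingHom K) → s.natDegree < d + 1 := by
    intro s hs
    have := natDegree_le_of_dvd hs hf1
    rw [natDegree_map_eq_of_injective hinj] at this
    omega
  have hsepK : (p * q * r).Separable := by
    refine Separable.of_dvd ?_ hdvd
    have h1 : f.map (Int.castRingHom K) =
        (f.map (Int.castRingHom ℚ)).map (algebraMap ℚ K) := by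
      rw [Polynomial.map_map]
      congr 1
      exact RingHom.ext_int _ _
    rw [h1]
    exact hsep.map
  let a : Fin (d + 1) × Fin (d + 1) × Fin (d + 1) :=
    (⟨p.natDegree, hdeg p hpd⟩, ⟨q.natDegree, hdeg q hqd⟩, ⟨r.natDegree, hdeg r hrd⟩)
  have ha : 0 < (a.2.1 : ℕ) ∧ 0 < (a.2.2 : ℕ) ∧ Even ((a.1 : ℕ) + a.2.1) ∧
      Even ((a.1 : ℕ) + a.2.2) := by
    refine ⟨hq0, hr0, ?_, ?_⟩
    · rw [hp.natDegree_mul hq] at he1; exact he1
    · rw [hp.natDegree_mul hr] at he2; exact he2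
  have h4M : 1 ≤ (4 * M) ^ d := one_le_pow₀ (by linarith)
  have key := hC0' a ha ((4 * M) ^ d) h4M p q r hp hq hr hsepK rfl rfl rfl
    (sm_of_dvd K f hf0 M hM hc d hfd p hp hpd) (sm_of_dvd K f hf0 M hM hc d hfd q hq hqd)
    (sm_of_dvd K f hf0 M hM hc d hfd r hr hrd) x u w hu hw
  refine key.trans ?_
  have hCle : C0 a ha ≤ ∑ a, Cf a := by
    have h1 : Cf a = C0 a ha := by
      simp only [Cf]
      rw [dif_pos ha]
    rw [← h1]
    exact Finset.single_le_sum (fun a _ => hCf a) (Finset.mem_univ a)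
  have hlogM : 0 ≤ Real.log M := Real.log_nonneg hM
  have hlog4 : Real.log 4 ≤ 2 := by
    have h1 : Real.log 4 = 2 * Real.log 2 := by
      rw [show (4 : ℝ) = 2 ^ 2 by norm_num, Real.log_pow]; push_cast; ring
    have h2 := Real.log_two_lt_d9
    rw [h1]; linarith
  have hH : 1 + Real.log ((4 * M) ^ d) ≤ (1 + 2 * d) * (1 + Real.log M) := by
    rw [Real.log_pow, Real.log_mul (by norm_num) (by positivity)]
    have hd0 : (0 : ℝ) ≤ d := Nat.cast_nonneg d
    nlinarith [mul_nonneg hd0 hlogM]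
  calc C0 a ha * (1 + Real.log ((4 * M) ^ d)) ≤
        (∑ a, Cf a) * ((1 + 2 * d) * (1 + Real.log M)) := by
          refine mul_le_mul hCle hH ?_ hsum
          have := Real.log_nonneg h4M
          linarith
    _ = _ := by ring

theorem three_sq (K : Type) [Field K] [NumberField K] [IsGalois ℚ K] (hi : ∃ z : K, z ^ 2 = -1)
    (d : ℕ) :
    ∃ C : ℝ, 0 ≤ C ∧ ∀ f : ℤ[X], f.natDegree ≤ d → (f.map (Int.castRingHom ℚ)).Separable →
      ∀ M : ℝ, 1 ≤ M → (∀ i, |(f.coeff i : ℝ)| ≤ M) → ∀ (x : ℤ),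
      (∀ a b : K[X], a.Monic → b.Monic → a * b ∣ f.map (Int.castRingHom K) → 0 < a.natDegree →
        0 < b.natDegree → Even a.natDegree → Even b.natDegree →
        (∃ u : K, u ^ 2 = a.eval (x : K)) → (∃ u : K, u ^ 2 = b.eval (x : K)) →
        Real.log (max |(x : ℝ)| 1) ≤ C * (1 + Real.log M)) ∧
      (∀ a b c : K[X], a.Monic → b.Monic → c.Monic → a * b * c ∣ f.map (Int.castRingHom K) →
        0 < a.natDegree → 0 < b.natDegree → 0 < c.natDegree →
        (∃ u : K, u ^ 2 = a.eval (x : K)) → (∃ u : K, u ^ 2 = b.eval (x : K)) →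
        (∃ u : K, u ^ 2 = c.eval (x : K)) →
        Real.log (max |(x : ℝ)| 1) ≤ C * (1 + Real.log M)) := by
  obtain ⟨C, hC0, hC⟩ := UM K hi d
  refine ⟨C, hC0, ?_⟩
  intro f hfd hsep M hM hc x
  have H2 : ∀ a b : K[X], a.Monic → b.Monic → a * b ∣ f.map (Int.castRingHom K) →
      0 < a.natDegree → 0 < b.natDegree → Even a.natDegree → Even b.natDegree →
        (∃ u : K, u ^ 2 = a.eval (x : K)) → (∃ u : K, u ^ 2 = b.eval (x : K)) →
        Real.log (max |(x : ℝ)| 1) ≤ C * (1 + Real.log M) := by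
    intro a b ha hb hdvd ha0 hb0 hea heb hu hw
    exact hC f hfd hsep M hM hc 1 a b monic_one ha hb (by rwa [one_mul]) ha0 hb0
      (by rwa [one_mul]) (by rwa [one_mul]) x (by rwa [one_mul]) (by rwa [one_mul])
  refine ⟨H2, ?_⟩
  intro a b c ha hb hcm hdvd ha0 hb0 hc0 hu hv hw
  have hmul : ∀ s t : K[X], (∃ u : K, u ^ 2 = s.eval (x : K)) → (∃ u : K, u ^ 2 = t.eval (x : K)) →
      ∃ u : K, u ^ 2 = (s * t).eval (x : K) := by
    rintro s t ⟨u, hu⟩ ⟨w, hw⟩
    exact ⟨u * w, by rw [mul_pow, hu, hw, eval_mul]⟩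
  rcases Nat.even_or_odd a.natDegree with ea | oa <;> rcases Nat.even_or_odd b.natDegree with eb | ob <;>
    rcases Nat.even_or_odd c.natDegree with ec | oc
  · exact H2 a b ha hb ((dvd_mul_right _ c).trans hdvd) ha0 hb0 ea eb hu hv
  · exact H2 a b ha hb ((dvd_mul_right _ c).trans hdvd) ha0 hb0 ea eb hu hv
  · exact H2 a c ha hcm ((Dvd.intro_left b (by ring)).trans hdvd) ha0 hc0 ea ec hu hw
  · exact H2 a (b * c) ha (hb.mul hcm) (by rwa [← mul_assoc]) ha0
      (by rw [hb.natDegree_mul hcm]; omega) ea (by rw [hb.natDegree_mul hcm]; exact ob.add_odd oc)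
      hu (hmul b c hv hw)
  · exact H2 b c hb hcm ((Dvd.intro_left a (by ring)).trans hdvd) hb0 hc0 eb ec hv hw
  · exact H2 (a * c) b (ha.mul hcm) hb (by
      have : a * c * b = a * b * c := by ring
      rwa [this]) (by rw [ha.natDegree_mul hcm]; omega) hb0
      (by rw [ha.natDegree_mul hcm]; exact oa.add_odd oc) eb (hmul a c hu hw) hv
  · exact H2 (a * b) c (ha.mul hb) hcm hdvd (by rw [ha.natDegree_mul hb]; omega) hc0
      (by rw [ha.natDegree_mul hb]; exact oa.add_odd ob) ec (hmul a b hu hv) hw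
  · exact hC f hfd hsep M hM hc a b c ha hb hcm hdvd hb0 hc0
      (by rw [ha.natDegree_mul hb]; exact oa.add_odd ob)
      (by rw [ha.natDegree_mul hcm]; exact oa.add_odd oc) x (hmul a b hu hv) (hmul a c hu hw)

/-- values in finitely many square classes -/
theorem three_cl (k : Type) [Field k] [NumberField k] (T : Finset k) (d : ℕ) :
    ∃ C : ℝ, 0 ≤ C ∧ ∀ f : ℤ[X], f.natDegree ≤ d → (f.map (Int.castRingHom ℚ)).Separable →
      ∀ M : ℝ, 1 ≤ M → (∀ i, |(f.coeff i : ℝ)| ≤ M) → ∀ (x : ℤ),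
      (∀ a b : k[X], a.Monic → b.Monic → a * b ∣ f.map (Int.castRingHom k) → 0 < a.natDegree →
        0 < b.natDegree → Even a.natDegree → Even b.natDegree →
        (∃ t ∈ T, ∃ u : k, a.eval (x : k) = t * u ^ 2) →
        (∃ t ∈ T, ∃ u : k, b.eval (x : k) = t * u ^ 2) →
        Real.log (max |(x : ℝ)| 1) ≤ C * (1 + Real.log M)) ∧
      (∀ a b c : k[X], a.Monic → b.Monic → c.Monic → a * b * c ∣ f.map (Int.castRingHom k) →
        0 < a.natDegree → 0 < b.natDegree → 0 < c.natDegree →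
        (∃ t ∈ T, ∃ u : k, a.eval (x : k) = t * u ^ 2) →
        (∃ t ∈ T, ∃ u : k, b.eval (x : k) = t * u ^ 2) →
        (∃ t ∈ T, ∃ u : k, c.eval (x : k) = t * u ^ 2) →
        Real.log (max |(x : ℝ)| 1) ≤ C * (1 + Real.log M)) := by
  obtain ⟨K, _, _, _, hG, hi, hT⟩ := sqf k T
  obtain ⟨C, hC0, hC⟩ := three_sq K hi d
  refine ⟨C, hC0, ?_⟩
  intro f hfd hsep M hM hc x
  obtain ⟨H2, H3⟩ := hC f hfd hsep M hM hc x
  have hval : ∀ a : k[X], (∃ t ∈ T, ∃ u : k, a.eval (x : k) = t * u ^ 2) →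
      ∃ u : K, u ^ 2 = (a.map (algebraMap k K)).eval (x : K) := by
    rintro a ⟨t, ht, u, hu⟩
    obtain ⟨z, hz⟩ := hT t ht
    refine ⟨z * algebraMap k K u, ?_⟩
    rw [mul_pow, hz, ← map_intCast (algebraMap k K) x, eval_map_algebraMap, aeval_algebraMap_apply,
      coe_aeval_eq_eval, hu, map_mul, map_pow]
  have hfm : (f.map (Int.castRingHom k)).map (algebraMap k K) = f.map (Int.castRingHom K) := by
    rw [Polynomial.map_map]
    congr 1
    exact RingHom.ext_int _ _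
  constructor
  · intro a b ha hb hdvd ha0 hb0 hea heb hu hv
    refine H2 (a.map (algebraMap k K)) (b.map (algebraMap k K)) (ha.map _) (hb.map _) ?_ ?_ ?_ ?_ ?_
      (hval a hu) (hval b hv)
    · rw [← Polynomial.map_mul, ← hfm]
      exact Polynomial.map_dvd _ hdvd
    all_goals rwa [natDegree_map]
  · intro a b c ha hb hcm hdvd ha0 hb0 hc0 hu hv hw
    refine H3 (a.map (algebraMap k K)) (b.map (algebraMap k K)) (c.map (algebraMap k K))
      (ha.map _) (hb.map _) (hcm.map _) ?_ ?_ ?_ ?_ (hval a hu) (hval b hv) (hval c hw)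
    · rw [← Polynomial.map_mul, ← Polynomial.map_mul, ← hfm]
      exact Polynomial.map_dvd _ hdvd
    all_goals rwa [natDegree_map]

end Pool.Agent.H16U
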