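import Mathlib
import Pool.Agent.H16U.Three
import Pool.Agent.H437R2.Man.MWSel

/-!
# Arithmetic part: coprime factors
-/

set_option autoImplicit false

open Finset Polynomial NumberField IsDedekindDomain

namespace Pool.Agent.H16U

section cnt

variable {k : Type} [Field k] [NumberField k]

theorem cnt_mul (v : HeightOneSpectrum (𝓞 k)) (a b : 𝓞 k) (ha : a ≠ 0) (hb : b ≠ 0) :
    (UniqueFactorizationMonoid.normalizedFactors (Ideal.span {a * b})).count v.asIdeal =
      (UniqueFactorizationMonoid.normalizedFactors (Ideal.span {a})).count v.asIdeal +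
      (UniqueFactorizationMonoid.normalizedFactors (Ideal.span {b})).count v.asIdeal := by
  rw [← Ideal.span_singleton_mul_span_singleton,
    UniqueFactorizationMonoid.normalizedFactors_mul (by simpa using ha) (by simpa using hb),
    Multiset.count_add]

theorem cnt_zero (v : HeightOneSpectrum (𝓞 k)) (a : 𝓞 k) (h : a ∉ v.asIdeal) :
    (UniqueFactorizationMonoid.normalizedFactors (Ideal.span {a})).count v.asIdeal = 0 := by
  rw [Multiset.count_eq_zero]
  intro h1
  exact h (Ideal.dvd_span_singleton.1 (UniqueFactorizationMonoid.dvd_of_mem_normalizedFactors h1))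

theorem cnt_prod (v : HeightOneSpectrum (𝓞 k)) {ι : Type} (s : Finset ι) (h : ι → 𝓞 k)
    (hv : ∀ i ∈ s, h i ∉ v.asIdeal) :
    (UniqueFactorizationMonoid.normalizedFactors (Ideal.span {∏ i ∈ s, h i})).count v.asIdeal =
      0 := by
  refine cnt_zero v _ ?_
  intro h1
  obtain ⟨i, hi, hi'⟩ := (Ideal.IsPrime.prod_mem_iff (hp := v.isPrime)).1 h1
  exact hv i hi hi'

theorem cnt_even (S : Finset (HeightOneSpectrum (𝓞 k))) {ι : Type} [Fintype ι] [DecidableEq ι]
    (h : ι → 𝓞 k)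
    (D y : 𝓞 k) (hy : y ^ 2 = D * ∏ i, h i) (h0 : y ≠ 0) (i : ι)
    (hi : ∀ v ∉ S, h i ∈ v.asIdeal → D ∉ v.asIdeal ∧ ∀ j, j ≠ i → h j ∉ v.asIdeal)
    (v : HeightOneSpectrum (𝓞 k)) (hv : v ∉ S) :
    Even ((UniqueFactorizationMonoid.normalizedFactors (Ideal.span {h i})).count v.asIdeal) := by
  by_cases h1 : h i ∈ v.asIdeal
  · have hD : D ∉ v.asIdeal := (hi v hv h1).1
    have hne : y ^ 2 ≠ 0 := pow_ne_zero 2 h0
    rw [hy] at hne
    have hD0 : D ≠ 0 := left_ne_zero_of_mul hne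
    have hp0 : ∏ i, h i ≠ 0 := right_ne_zero_of_mul hne
    have hh0 : ∀ j, h j ≠ 0 := fun j => (Finset.prod_ne_zero_iff.1 hp0) j (Finset.mem_univ j)
    have h2 := cnt_mul v D (∏ i, h i) hD0 hp0
    rw [← hy, pow_two, cnt_mul v y y h0 h0, cnt_zero v D hD,
      ← Finset.mul_prod_erase Finset.univ h (Finset.mem_univ i),
      cnt_mul v (h i) _ (hh0 i) (Finset.prod_ne_zero_iff.2 fun j _ => hh0 j),
      cnt_prod v (Finset.univ.erase i) h
        (fun j hj => (hi v hv h1).2 j (Finset.ne_of_mem_erase hj))] at h2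
    rw [zero_add, add_zero] at h2
    exact ⟨_, h2.symm⟩
  · rw [cnt_zero v _ h1]
    exact ⟨0, rfl⟩

/-- at most `ω` indices are spoiled -/
theorem spoiled (S : Finset (HeightOneSpectrum (𝓞 k))) {ι : Type} [DecidableEq ι]
    (G : Finset ι) (h : ι → 𝓞 k) (D : 𝓞 k) (hD : D ≠ 0)
    (hcop : ∀ v ∉ S, ∀ i ∈ G, ∀ j, j ≠ i → h i ∈ v.asIdeal → h j ∉ v.asIdeal) :
    ∃ B : Finset ι, B.card ≤ {v : HeightOneSpectrum (𝓞 k) | v ∉ S ∧ D ∈ v.asIdeal}.ncard ∧
      ∀ i ∈ G, i ∉ B → ∀ v ∉ S, h i ∈ v.asIdeal → D ∉ v.asIdeal := by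
  classical
  have hfin : {v : HeightOneSpectrum (𝓞 k) | v ∉ S ∧ D ∈ v.asIdeal}.Finite := by
    have h1 : {v : HeightOneSpectrum (𝓞 k) | v.asIdeal ∣ Ideal.span {D}}.Finite :=
      Ideal.finite_factors (by simpa using hD)
    exact h1.subset fun v hv => Ideal.dvd_span_singleton.2 hv.2
  let B : Finset ι := G.filter fun i => ∃ v, v ∉ S ∧ D ∈ v.asIdeal ∧ h i ∈ v.asIdeal
  refine ⟨B, ?_, ?_⟩
  · have h2 : ∀ i ∈ B, ∃ v, v ∉ S ∧ D ∈ v.asIdeal ∧ h i ∈ v.asIdeal := fun i hi =>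
      (Finset.mem_filter.1 hi).2
    rcases B.eq_empty_or_nonempty with hB | ⟨i0, hi0⟩
    · rw [hB]; simp
    obtain ⟨v0, -⟩ := h2 i0 hi0
    have hN : Nonempty (HeightOneSpectrum (𝓞 k)) := ⟨v0⟩
    choose! w hw using h2
    rw [Set.ncard_eq_toFinset_card _ hfin]
    refine Finset.card_le_card_of_injOn w ?_ ?_
    · intro i hi
      have := hw i hi
      simpa using ⟨this.1, this.2.1⟩
    · intro i hi j hj hij
      by_contra hne
      have h3 := hw i hi
      have h4 := hw j hj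
      have hi' := (Finset.mem_filter.1 hi).1
      refine hcop (w i) h3.1 i hi' j (Ne.symm hne) h3.2.2 ?_
      rw [hij]
      exact h4.2.2
  · intro i hiG hi v hv h5 hDv
    exact hi (Finset.mem_filter.2 ⟨hiG, v, hv, hDv, h5⟩)

end cnt

/-- factors which are coprime at the point -/
theorem cop_point (k : Type) [Field k] [NumberField k] (S : Finset (HeightOneSpectrum (𝓞 k)))
    (d : ℕ) :
    ∃ C : ℝ, 0 ≤ C ∧ ∀ f : ℤ[X], f.natDegree ≤ d → (f.map (Int.castRingHom ℚ)).Separable →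
      ∀ M : ℝ, 1 ≤ M → (∀ i, |(f.coeff i : ℝ)| ≤ M) →
      ∀ (n : ℕ) (g : Fin n → (𝓞 k)[X]), f.map (Int.castRingHom (𝓞 k)) = ∏ i, g i →
      ∀ D x y : ℤ, D ≠ 0 → y ^ 2 = D * f.eval x → ∀ G : Finset (Fin n),
      (∀ i ∈ G, 0 < (g i).natDegree ∧
        (∃ e b : 𝓞 k, (g i).leadingCoeff = e * b ^ 2 ∧ ∀ v ∉ S, e ∉ v.asIdeal) ∧
        ∀ v ∉ S, (g i).eval (x : 𝓞 k) ∈ v.asIdeal →
          (D : 𝓞 k) ∉ v.asIdeal ∧ ∀ j, j ≠ i → (g j).eval (x : 𝓞 k) ∉ v.asIdeal) →
      (3 ≤ G.card ∨ (2 ≤ G.card ∧ ∀ i ∈ G, Even (g i).natDegree)) →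
      Real.log (max |(x : ℝ)| 1) ≤ C * (1 + Real.log M) := by
  classical
  obtain ⟨T, hT0, hT⟩ := Pool.Agent.H437R2.Man.MW.sel_int (K := k) (S : Set _) S.finite_toSet
  obtain ⟨C0, hC0, hC⟩ := three_cl k (T.image (algebraMap (𝓞 k) k)) d
  refine ⟨C0 + 1, by linarith, ?_⟩
  intro f hfd hsep M hM hc n g hfg D x y hD hy G hG hm
  have hlogM : 0 ≤ Real.log M := Real.log_nonneg hM
  have hf0 : f ≠ 0 := by
    rintro rfl
    rw [Polynomial.map_zero] at hsep
    exact not_separable_zero hsep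
  by_cases hfx : f.eval x = 0
  · -- a root
    have h1 := root_bound f hf0 M hM hc (x : ℂ) (by
      rw [IsRoot.def, eval_map, eval₂_at_intCast]
      simp [hfx])
    rw [Complex.norm_intCast] at h1
    have h2 : max |(x : ℝ)| 1 ≤ 2 * M := max_le (h1.trans (by linarith)) (by linarith)
    have h3 : Real.log (max |(x : ℝ)| 1) ≤ Real.log 2 + Real.log M := by
      rw [← Real.log_mul (by norm_num) (by positivity)]
      exact Real.log_le_log (lt_max_of_lt_right one_pos) h2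
    have h4 := Real.log_two_lt_d9
    nlinarith
  · have hinj : Function.Injective (Int.castRingHom (𝓞 k)) := Int.cast_injective
    have hprod : ∏ i, (g i).eval (x : 𝓞 k) = ((f.eval x : ℤ) : 𝓞 k) := by
      rw [← Polynomial.eval_prod, ← hfg, eval_map, eval₂_at_intCast]
      simp
    have hP0 : ∏ i, (g i).eval (x : 𝓞 k) ≠ 0 := by
      rw [hprod]
      exact_mod_cast hfx
    have hg0 : ∀ i, (g i).eval (x : 𝓞 k) ≠ 0 := fun i =>
      (Finset.prod_ne_zero_iff.1 hP0) i (Finset.mem_univ i)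
    have hy0 : (y : 𝓞 k) ≠ 0 := by
      intro h
      have h1 : y = 0 := by exact_mod_cast h
      rw [h1] at hy
      have : D * f.eval x = 0 := by rw [← hy]; ring
      exact (mul_ne_zero hD hfx) this
    have hyk : (y : 𝓞 k) ^ 2 = (D : 𝓞 k) * ∏ i, (g i).eval (x : 𝓞 k) := by
      rw [hprod]
      exact_mod_cast congrArg (Int.cast : ℤ → 𝓞 k) hy
    -- the monic factors
    let a : Fin n → k[X] := fun i =>
      C (algebraMap (𝓞 k) k (g i).leadingCoeff)⁻¹ * (g i).map (algebraMap (𝓞 k) k)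
    have hgne : ∀ i, g i ≠ 0 := by
      intro i h
      apply hg0 i
      rw [h, eval_zero]
    have hlk : ∀ i, algebraMap (𝓞 k) k (g i).leadingCoeff ≠ 0 := by
      intro i
      simpa using hgne i
    have hinjk : Function.Injective (algebraMap (𝓞 k) k) := RingOfIntegers.coe_injective
    have hamon : ∀ i, (a i).Monic := by
      intro i
      refine monic_C_mul_of_mul_leadingCoeff_eq_one ?_
      rw [leadingCoeff_map_of_injective hinjk]
      exact inv_mul_cancel₀ (hlk i)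
    have hadeg : ∀ i, (a i).natDegree = (g i).natDegree := by
      intro i
      simp only [a]
      rw [natDegree_C_mul (inv_ne_zero (hlk i)), natDegree_map_eq_of_injective hinjk]
    have hadvd : ∀ s : Finset (Fin n), ∏ i ∈ s, a i ∣ f.map (Int.castRingHom k) := by
      intro s
      have h1 : f.map (Int.castRingHom k) = ∏ i, (g i).map (algebraMap (𝓞 k) k) := by
        rw [← Polynomial.map_prod, ← hfg, Polynomial.map_map]
        congr 1
      rw [h1]
      refine (Finset.prod_dvd_prod_of_dvd _ _ fun i _ => ?_).trans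
        (Finset.prod_dvd_prod_of_subset s Finset.univ _ (Finset.subset_univ s))
      simp only [a]
      rw [(isUnit_C.2 (inv_ne_zero (hlk i)).isUnit).mul_left_dvd]
    have haval : ∀ i ∈ G, ∃ t ∈ T.image (algebraMap (𝓞 k) k), ∃ u : k,
        (a i).eval (x : k) = t * u ^ 2 := by
      intro i hiG
      obtain ⟨-, ⟨e, b, heb, he⟩, hcop⟩ := hG i hiG
      have hl0 : (g i).leadingCoeff ≠ 0 := leadingCoeff_ne_zero.2 (hgne i)
      have he0 : e ≠ 0 := by
        rintro rfl
        apply hl0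
        rw [heb, zero_mul]
      have hb0 : b ≠ 0 := by
        rintro rfl
        apply hl0
        rw [heb]; ring
      have hev := cnt_even S (fun i => (g i).eval (x : 𝓞 k)) (D : 𝓞 k) (y : 𝓞 k) hyk hy0 i hcop
      obtain ⟨t, ht, p, q, hp, hq, hpq⟩ := hT ((g i).leadingCoeff * (g i).eval (x : 𝓞 k))
        (mul_ne_zero hl0 (hg0 i)) (by
          intro v hv
          have hv' : v ∉ S := fun h => hv (by exact_mod_cast h)
          rw [cnt_mul v _ _ hl0 (hg0 i)]
          refine Even.add ?_ (hev v hv')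
          rw [heb, cnt_mul v _ _ he0 (pow_ne_zero 2 hb0), cnt_zero v e (he v hv'), zero_add,
            pow_two, cnt_mul v _ _ hb0 hb0]
          exact ⟨_, rfl⟩)
      refine ⟨algebraMap (𝓞 k) k t, Finset.mem_image_of_mem _ ht,
        algebraMap (𝓞 k) k q / (algebraMap (𝓞 k) k p * algebraMap (𝓞 k) k (g i).leadingCoeff), ?_⟩
      have hpk : algebraMap (𝓞 k) k p ≠ 0 := by simpa using hp
      have h1 := congrArg (algebraMap (𝓞 k) k) hpq
      simp only [map_mul, map_pow] at h1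
      have h2 : (a i).eval (x : k) = (algebraMap (𝓞 k) k (g i).leadingCoeff)⁻¹ *
          algebraMap (𝓞 k) k ((g i).eval (x : 𝓞 k)) := by
        simp only [a]
        rw [eval_mul, eval_C, ← map_intCast (algebraMap (𝓞 k) k) x, eval_map_algebraMap,
          aeval_algebraMap_apply, coe_aeval_eq_eval]
      have h3 := hlk i
      rw [h2]
      field_simp
      linear_combination h1
    have hle := hC f hfd hsep M hM hc x
    have hfin : C0 * (1 + Real.log M) ≤ (C0 + 1) * (1 + Real.log M) := by nlinarith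
    refine le_trans ?_ hfin
    rcases hm with hm | ⟨hm, hme⟩
    · -- three indices
      obtain ⟨i, hi, j, hj, l, hl, hij, hil, hjl⟩ := Finset.two_lt_card.1 (show 2 < G.card from hm)
      refine hle.2 (a i) (a j) (a l) (hamon i) (hamon j) (hamon l) ?_ ?_ ?_ ?_
        (haval i hi) (haval j hj) (haval l hl)
      · have h3 := hadvd {i, j, l}
        rw [Finset.prod_insert (by simp [hij, hil]), Finset.prod_insert (by simp [hjl]),
          Finset.prod_singleton, ← mul_assoc] at h3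
        exact h3
      · rw [hadeg]; exact (hG i hi).1
      · rw [hadeg]; exact (hG j hj).1
      · rw [hadeg]; exact (hG l hl).1
    · -- two indices
      obtain ⟨i, hi, j, hj, hij⟩ := Finset.one_lt_card.1 (show 1 < G.card from hm)
      refine hle.1 (a i) (a j) (hamon i) (hamon j) ?_ ?_ ?_ ?_ ?_
        (haval i hi) (haval j hj)
      · have h3 := hadvd {i, j}
        rw [Finset.prod_insert (by simp [hij]), Finset.prod_singleton] at h3
        exact h3
      · rw [hadeg]; exact (hG i hi).1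
      · rw [hadeg]; exact (hG j hj).1
      · rw [hadeg]; exact hme i hi
      · rw [hadeg]; exact hme j hj

/-- factors which are comaximal as polynomials: all points, all twists with few primes -/
theorem cop_family (k : Type) [Field k] [NumberField k] (S : Finset (HeightOneSpectrum (𝓞 k)))
    (d : ℕ) :
    ∃ C : ℝ, 0 ≤ C ∧ ∀ f : ℤ[X], f.natDegree ≤ d → (f.map (Int.castRingHom ℚ)).Separable →
      ∀ M : ℝ, 1 ≤ M → (∀ i, |(f.coeff i : ℝ)| ≤ M) →
      ∀ (n : ℕ) (g : Fin n → (𝓞 k)[X]), f.map (Int.castRingHom (𝓞 k)) = ∏ i, g i →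
      ∀ G : Finset (Fin n),
      (∀ i ∈ G, 0 < (g i).natDegree ∧
        (∃ e b : 𝓞 k, (g i).leadingCoeff = e * b ^ 2 ∧ ∀ v ∉ S, e ∉ v.asIdeal) ∧
        ∀ j, j ≠ i → ∃ (u w : (𝓞 k)[X]) (s : 𝓞 k), u * g i + w * g j = Polynomial.C s ∧
          ∀ v ∉ S, s ∉ v.asIdeal) →
      ∀ D : ℤ, D ≠ 0 →
      ({v : HeightOneSpectrum (𝓞 k) | v ∉ S ∧ (D : 𝓞 k) ∈ v.asIdeal}.ncard + 3 ≤ G.card ∨
        {v : HeightOneSpectrum (𝓞 k) | v ∉ S ∧ (D : 𝓞 k) ∈ v.asIdeal}.ncard + 2 ≤
          {i : Fin n | i ∈ G ∧ Even (g i).natDegree}.ncard) →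
      ∀ x y : ℤ, y ^ 2 = D * f.eval x →
      Real.log (max |(x : ℝ)| 1) ≤ C * (1 + Real.log M) := by
  classical
  obtain ⟨C0, hC0, hC⟩ := cop_point k S d
  refine ⟨C0, hC0, ?_⟩
  intro f hfd hsep M hM hc n g hfg G hG D hD hm x y hy
  have hcop : ∀ v ∉ S, ∀ i ∈ G, ∀ j, j ≠ i → (g i).eval (x : 𝓞 k) ∈ v.asIdeal →
      (g j).eval (x : 𝓞 k) ∉ v.asIdeal := by
    intro v hv i hi j hj h1 h2
    obtain ⟨u, w, s, hs, hsv⟩ := (hG i hi).2.2 j hj
    apply hsv v hv
    have h3 := congrArg (Polynomial.eval (x : 𝓞 k)) hs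
    rw [eval_add, eval_mul, eval_mul, eval_C] at h3
    rw [← h3]
    exact v.asIdeal.add_mem (v.asIdeal.mul_mem_left _ h1) (v.asIdeal.mul_mem_left _ h2)
  obtain ⟨B, hB, hB'⟩ := spoiled S G (fun i => (g i).eval (x : 𝓞 k)) (D : 𝓞 k)
    (by exact_mod_cast hD) hcop
  have hcond : ∀ i ∈ G, i ∉ B → 0 < (g i).natDegree ∧
        (∃ e b : 𝓞 k, (g i).leadingCoeff = e * b ^ 2 ∧ ∀ v ∉ S, e ∉ v.asIdeal) ∧
        ∀ v ∉ S, (g i).eval (x : 𝓞 k) ∈ v.asIdeal →
          (D : 𝓞 k) ∉ v.asIdeal ∧ ∀ j, j ≠ i → (g j).eval (x : 𝓞 k) ∉ v.asIdeal := by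
    intro i hi hiB
    refine ⟨(hG i hi).1, (hG i hi).2.1, ?_⟩
    intro v hv h1
    exact ⟨hB' i hi hiB v hv h1, fun j hj => hcop v hv i hi j hj h1⟩
  rcases hm with hm | hm
  · refine hC f hfd hsep M hM hc n g hfg D x y hD hy (G \ B) ?_ (Or.inl ?_)
    · intro i hi
      rw [Finset.mem_sdiff] at hi
      exact hcond i hi.1 hi.2
    · have := Finset.le_card_sdiff B G
      omega
  · have h0 : {i : Fin n | i ∈ G ∧ Even (g i).natDegree} =
        ((G.filter fun i => Even (g i).natDegree : Finset (Fin n)) : Set (Fin n)) := by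
      ext i; simp
    rw [h0, Set.ncard_coe_finset] at hm
    refine hC f hfd hsep M hM hc n g hfg D x y hD hy
      ((G.filter fun i => Even (g i).natDegree) \ B) ?_ (Or.inr ⟨?_, ?_⟩)
    · intro i hi
      rw [Finset.mem_sdiff, Finset.mem_filter] at hi
      exact hcond i hi.1.1 hi.2
    · have := Finset.le_card_sdiff B (G.filter fun i => Even (g i).natDegree)
      omega
    · intro i hi
      rw [Finset.mem_sdiff, Finset.mem_filter] at hi
      exact hi.1.2

end Pool.Agent.H16U
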