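import Mathlib
import Pool.Agent.H16U.Three

/-!
# Two distinct monic divisors of even degree
-/

set_option autoImplicit false

open Finset Polynomial NumberField

namespace Pool.Agent.H16U

/-- two monic polynomials over a field, up to their greatest common divisor -/
theorem gcd_split (K : Type) [Field K] (a b : K[X]) (ha : a.Monic) (hb : b.Monic) :
    ∃ p q r : K[X], p.Monic ∧ q.Monic ∧ r.Monic ∧ a = p * q ∧ b = p * r ∧ IsCoprime q r := by
  classical
  have hg0 : EuclideanDomain.gcd a b ≠ 0 := by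
    intro h
    exact ha.ne_zero (EuclideanDomain.gcd_eq_zero_iff.1 h).1
  obtain ⟨q, hq⟩ := EuclideanDomain.gcd_dvd_left a b
  obtain ⟨r, hr⟩ := EuclideanDomain.gcd_dvd_right a b
  have hbz := EuclideanDomain.gcd_eq_gcd_ab a b
  set g := EuclideanDomain.gcd a b with hg
  have hc : g.leadingCoeff ≠ 0 := leadingCoeff_ne_zero.2 hg0
  have hp : (C g.leadingCoeff⁻¹ * g).Monic := monic_C_mul_of_mul_leadingCoeff_eq_one
    (inv_mul_cancel₀ hc)
  have hcc : C g.leadingCoeff⁻¹ * C g.leadingCoeff = (1 : K[X]) := by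
    rw [← C_mul, inv_mul_cancel₀ hc, C_1]
  have e1 : a = (C g.leadingCoeff⁻¹ * g) * (C g.leadingCoeff * q) := by
    calc a = g * q := hq
      _ = (C g.leadingCoeff⁻¹ * C g.leadingCoeff) * (g * q) := by rw [hcc, one_mul]
      _ = _ := by ring
  have e2 : b = (C g.leadingCoeff⁻¹ * g) * (C g.leadingCoeff * r) := by
    calc b = g * r := hr
      _ = (C g.leadingCoeff⁻¹ * C g.leadingCoeff) * (g * r) := by rw [hcc, one_mul]
      _ = _ := by ring
  refine ⟨C g.leadingCoeff⁻¹ * g, C g.leadingCoeff * q, C g.leadingCoeff * r, hp,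
    Monic.of_mul_monic_left hp (e1 ▸ ha), Monic.of_mul_monic_left hp (e2 ▸ hb), e1, e2, ?_⟩
  refine ⟨C g.leadingCoeff⁻¹ * EuclideanDomain.gcdA a b,
    C g.leadingCoeff⁻¹ * EuclideanDomain.gcdB a b, ?_⟩
  have h1 : g * (q * EuclideanDomain.gcdA a b + r * EuclideanDomain.gcdB a b) = g * 1 := by
    calc g * (q * EuclideanDomain.gcdA a b + r * EuclideanDomain.gcdB a b) =
          (g * q) * EuclideanDomain.gcdA a b + (g * r) * EuclideanDomain.gcdB a b := by ring
      _ = a * EuclideanDomain.gcdA a b + b * EuclideanDomain.gcdB a b := by rw [← hq, ← hr]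
      _ = g * 1 := by rw [← hbz, mul_one]
  have h2 := mul_left_cancel₀ hg0 h1
  calc _ = (C g.leadingCoeff⁻¹ * C g.leadingCoeff) *
        (q * EuclideanDomain.gcdA a b + r * EuclideanDomain.gcdB a b) := by ring
    _ = 1 := by rw [hcc, h2, one_mul]

/-- values which are squares -/
theorem two_sq (K : Type) [Field K] [NumberField K] [IsGalois ℚ K] (hi : ∃ z : K, z ^ 2 = -1)
    (d : ℕ) :
    ∃ C : ℝ, 0 ≤ C ∧ ∀ f : ℤ[X], f.natDegree ≤ d → (f.map (Int.castRingHom ℚ)).Separable →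
      ∀ M : ℝ, 1 ≤ M → (∀ i, |(f.coeff i : ℝ)| ≤ M) → ∀ (x : ℤ),
      ∀ a b : K[X], a.Monic → b.Monic → a ∣ f.map (Int.castRingHom K) →
        b ∣ f.map (Int.castRingHom K) → a ≠ 1 → b ≠ 1 → a ≠ b → Even a.natDegree →
        Even b.natDegree →
        (∃ u : K, u ^ 2 = a.eval (x : K)) → (∃ u : K, u ^ 2 = b.eval (x : K)) →
        Real.log (max |(x : ℝ)| 1) ≤ C * (1 + Real.log M) := by
  classical
  obtain ⟨C0, hC0, hC⟩ := UM K hi d
  refine ⟨C0 + 1, by linarith, ?_⟩
  intro f hfd hsep M hM hc x a b ha hb had hbd ha1 hb1 hab hea heb ⟨u, hu⟩ ⟨w, hw⟩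
  have hlogM : 0 ≤ Real.log M := Real.log_nonneg hM
  have hf0 : f ≠ 0 := by
    rintro rfl
    rw [Polynomial.map_zero] at hsep
    exact not_separable_zero hsep
  by_cases hfx : f.eval x = 0
  · -- a root
    have h1 := root_bound f hf0 M hM hc (x : ℂ) (by
      rw [IsRoot.def, eval_map, eval₂_at_intCast]
      simp [hfx])
    rw [Complex.norm_intCast] at h1
    have h2 : max |(x : ℝ)| 1 ≤ 2 * M := max_le (h1.trans (by linarith)) (by linarith)
    have h3 : Real.log (max |(x : ℝ)| 1) ≤ Real.log 2 + Real.log M := by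
      rw [← Real.log_mul (by norm_num) (by positivity)]
      exact Real.log_le_log (lt_max_of_lt_right one_pos) h2
    have h4 := Real.log_two_lt_d9
    nlinarith
  have hfin : C0 * (1 + Real.log M) ≤ (C0 + 1) * (1 + Real.log M) := by nlinarith
  refine le_trans ?_ hfin
  have hev : ∀ s : K[X], s ∣ f.map (Int.castRingHom K) → s.eval (x : K) ≠ 0 := by
    rintro s ⟨t, ht⟩ h0
    apply hfx
    have h1 : (f.map (Int.castRingHom K)).eval (x : K) = 0 := by rw [ht, eval_mul, h0, zero_mul]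
    rw [eval_map, eval₂_at_intCast] at h1
    simpa using h1
  obtain ⟨p, q, r, hp, hq, hr, e1, e2, hqr⟩ := gcd_split K a b ha hb
  have hpos : ∀ s : K[X], s.Monic → s ≠ 1 → 0 < s.natDegree := by
    intro s hs h1
    rcases Nat.eq_zero_or_pos s.natDegree with h | h
    · exact absurd (hs.natDegree_eq_zero.1 h) h1
    · exact h
  -- nested divisors
  have nested : ∀ a b r : K[X], a.Monic → b.Monic → r.Monic → b ∣ f.map (Int.castRingHom K) →
      b = a * r → a ≠ 1 → a ≠ b → Even a.natDegree → Even b.natDegree →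
      (∃ u : K, u ^ 2 = a.eval (x : K)) → (∃ u : K, u ^ 2 = b.eval (x : K)) →
      Real.log (max |(x : ℝ)| 1) ≤ C0 * (1 + Real.log M) := by
    rintro a b r ha hb hr hbd hbar ha1 hab hea heb ⟨u, hu⟩ ⟨w, hw⟩
    have hr1 : r ≠ 1 := by
      rintro rfl
      exact hab (by rw [hbar, mul_one])
    have hdr : b.natDegree = a.natDegree + r.natDegree := by rw [hbar, ha.natDegree_mul hr]
    have hax : a.eval (x : K) ≠ 0 := hev a ((Dvd.intro r hbar.symm).trans hbd)
    have hu0 : u ≠ 0 := by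
      rintro rfl
      apply hax
      rw [← hu]; ring
    refine hC f hfd hsep M hM hc 1 a r monic_one ha hr ?_ (hpos a ha ha1) (hpos r hr hr1) ?_ ?_ x
      ⟨u, ?_⟩ ⟨w / u, ?_⟩
    · rw [one_mul, ← hbar]; exact hbd
    · rwa [one_mul]
    · rw [one_mul]
      rw [hdr] at heb
      exact (Nat.even_add.1 heb).1 hea
    · rw [one_mul, hu]
    · rw [one_mul, div_pow, hw, hu, hbar, eval_mul]
      field_simp
  by_cases hq1 : q = 1
  · rw [hq1, mul_one] at e1
    exact nested a b r ha hb hr hbd (by rw [e2, e1]) ha1 hab hea heb ⟨u, hu⟩ ⟨w, hw⟩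
  by_cases hr1 : r = 1
  · rw [hr1, mul_one] at e2
    exact nested b a q hb ha hq had (by rw [e1, e2]) hb1 hab.symm heb hea ⟨w, hw⟩ ⟨u, hu⟩
  · refine hC f hfd hsep M hM hc p q r hp hq hr ?_ (hpos q hq hq1) (hpos r hr hr1) ?_ ?_ x
      ⟨u, ?_⟩ ⟨w, ?_⟩
    · obtain ⟨F, hF⟩ : p ∣ f.map (Int.castRingHom K) := (Dvd.intro q e1.symm).trans had
      have h1 : q ∣ F := by
        rw [e1, hF] at had
        exact (mul_dvd_mul_iff_left hp.ne_zero).1 had
      have h2 : r ∣ F := by
        rw [e2, hF] at hbd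
        exact (mul_dvd_mul_iff_left hp.ne_zero).1 hbd
      rw [hF, mul_assoc]
      exact mul_dvd_mul_left p (hqr.mul_dvd h1 h2)
    · rwa [← e1]
    · rwa [← e2]
    · rw [hu, e1]
    · rw [hw, e2]

/-- two distinct nonconstant monic divisors of even degree with values in finitely many square
classes -/
theorem two_div (k : Type) [Field k] [NumberField k] (T : Finset k) (d : ℕ) :
    ∃ C : ℝ, 0 ≤ C ∧ ∀ f : ℤ[X], f.natDegree ≤ d → (f.map (Int.castRingHom ℚ)).Separable →
      ∀ M : ℝ, 1 ≤ M → (∀ i, |(f.coeff i : ℝ)| ≤ M) → ∀ (x : ℤ),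
      ∀ a b : k[X], a.Monic → b.Monic → a ∣ f.map (Int.castRingHom k) →
        b ∣ f.map (Int.castRingHom k) → a ≠ 1 → b ≠ 1 → a ≠ b → Even a.natDegree →
        Even b.natDegree →
        (∃ t ∈ T, ∃ u : k, a.eval (x : k) = t * u ^ 2) →
        (∃ t ∈ T, ∃ u : k, b.eval (x : k) = t * u ^ 2) →
        Real.log (max |(x : ℝ)| 1) ≤ C * (1 + Real.log M) := by
  obtain ⟨K, _, _, _, hG, hi, hT⟩ := sqf k T
  obtain ⟨C, hC0, hC⟩ := two_sq K hi d
  refine ⟨C, hC0, ?_⟩
  intro f hfd hsep M hM hc x a b ha hb had hbd ha1 hb1 hab hea heb hu hw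
  have hval : ∀ a : k[X], (∃ t ∈ T, ∃ u : k, a.eval (x : k) = t * u ^ 2) →
      ∃ u : K, u ^ 2 = (a.map (algebraMap k K)).eval (x : K) := by
    rintro a ⟨t, ht, u, hu⟩
    obtain ⟨z, hz⟩ := hT t ht
    refine ⟨z * algebraMap k K u, ?_⟩
    rw [mul_pow, hz, ← map_intCast (algebraMap k K) x, eval_map_algebraMap, aeval_algebraMap_apply,
      coe_aeval_eq_eval, hu, map_mul, map_pow]
  have hfm : (f.map (Int.castRingHom k)).map (algebraMap k K) = f.map (Int.castRingHom K) := by
    rw [Polynomial.map_map]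
    congr 1
    exact RingHom.ext_int _ _
  have hinj : Function.Injective (Polynomial.map (algebraMap k K)) :=
    Polynomial.map_injective _ (algebraMap k K).injective
  refine hC f hfd hsep M hM hc x (a.map (algebraMap k K)) (b.map (algebraMap k K)) (ha.map _)
    (hb.map _) ?_ ?_ ?_ ?_ ?_ ?_ ?_ (hval a hu) (hval b hw)
  · rw [← hfm]; exact Polynomial.map_dvd _ had
  · rw [← hfm]; exact Polynomial.map_dvd _ hbd
  · intro h; exact ha1 (hinj (by simpa using h))
  · intro h; exact hb1 (hinj (by simpa using h))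
  · intro h; exact hab (hinj h)
  · rwa [natDegree_map]
  · rwa [natDegree_map]

end Pool.Agent.H16U
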