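import Mathlib
import Pool.Agent.ZH16.ASL.Comb

set_option autoImplicit false

/-! MP_9c3df6_al, Q1: if the finite poset `P` is a disjoint union of chains, every compatible
algebra with straightening laws on the lattice of poset ideals of `P` has the same straightening
relations as the toric ring of the order polytope (and as the toric rings of the chain polytopes of
`P` and of its dual). -/

namespace Pool.Agent.H16U.UniqueForChains

open MvPolynomial

/-- A finite multiset of lattice elements indexes a standard monomial when its elements are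
pairwise comparable. -/
def IsStd {L : Type} [PartialOrder L] (m : Multiset L) : Prop :=
  ∀ a ∈ m, ∀ b ∈ m, a ≤ b ∨ b ≤ a

/-- `φ(I) = w_I t` in the polynomial ring in the variables `x_s` (`s : σ`) and `t`; the variables
are indexed by `Option σ`, where `none` is `t` and `some s` is `x_s`. -/
noncomputable def phi (K : Type*) [Field K] {P σ : Type} [PartialOrder P]
    (w : LowerSet P → (σ →₀ ℕ)) (I : LowerSet P) : MvPolynomial (Option σ) K :=
  rename some (monomial (w I) (1 : K)) * X none

/-- The standard monomial with index `m`. -/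
noncomputable def stdMon (K : Type*) [Field K] {P σ : Type} [PartialOrder P]
    (w : LowerSet P → (σ →₀ ℕ)) (m : {m : Multiset (LowerSet P) // IsStd m}) :
    MvPolynomial (Option σ) K :=
  (m.1.map (phi K w)).prod

/-- `K[Ω]`, the subalgebra generated by the `w_I t`, is an algebra with straightening laws on the
lattice of poset ideals via `φ`.  (It is graded by the degree in `t`, its degree zero part is `K`
and the `φ(I)` have degree one.) -/
structure IsASL (K : Type*) [Field K] {P σ : Type} [PartialOrder P]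
    (w : LowerSet P → (σ →₀ ℕ)) : Prop where
  /-- `φ` is injective -/
  inj : Function.Injective (phi K w)
  /-- the standard monomials are linearly independent -/
  indep : LinearIndependent K (stdMon K w)
  /-- the standard monomials span `K[Ω]` -/
  span : ∀ r ∈ Algebra.adjoin K (Set.range (phi K w)),
    r ∈ Submodule.span K (Set.range (stdMon K w))
  /-- the straightening relations -/
  straight : ∀ I I' : LowerSet P, ¬ I ≤ I' → ¬ I' ≤ I →
    ∃ c : {m : Multiset (LowerSet P) // IsStd m} →₀ K,
      phi K w I * phi K w I' = c.sum (fun m r => r • stdMon K w m) ∧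
      ∀ m ∈ c.support, ∃ g ∈ m.1, (∀ d ∈ m.1, g ≤ d) ∧ g ≤ I ∧ g ≤ I'

/-- A compatible ASL: all straightening relations read `φ(I) φ(I') = φ(J) φ(J')` with
`J ⊆ I ∩ I'` and `I ∪ I' ⊆ J'`. -/
structure IsCompatibleASL (K : Type*) [Field K] {P σ : Type} [PartialOrder P]
    (w : LowerSet P → (σ →₀ ℕ)) : Prop where
  /-- it is an ASL -/
  asl : IsASL K w
  /-- its straightening relations are compatible -/
  compat : ∀ I I' : LowerSet P, ¬ I ≤ I' → ¬ I' ≤ I →
    ∃ J J' : LowerSet P, J ≤ I ⊓ I' ∧ I ⊔ I' ≤ J' ∧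
      phi K w I * phi K w I' = phi K w J * phi K w J'

/-- Two compatible ASLs have the same straightening relations. -/
def Identified (K : Type*) [Field K] {P σ τ : Type} [PartialOrder P]
    (w : LowerSet P → (σ →₀ ℕ)) (w' : LowerSet P → (τ →₀ ℕ)) : Prop :=
  ∀ I I' : LowerSet P, ¬ I ≤ I' → ¬ I' ≤ I → ∀ J J' : LowerSet P, J ≤ J' →
    (phi K w I * phi K w I' = phi K w J * phi K w J' ↔
      phi K w' I * phi K w' I' = phi K w' J * phi K w' J')

/-- The exponent vector of the monomial `x(W)`, the product of the `x_p` with `p ∈ W`. -/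
noncomputable def xMon {P : Type} [Finite P] (W : Set P) : P →₀ ℕ :=
  Finsupp.equivFunOnFinite.symm (Set.indicator W 1)

/-- `K[O(P)]`: `w_I = x(I)`. -/
noncomputable def wO {P : Type} [PartialOrder P] [Finite P] (I : LowerSet P) : P →₀ ℕ :=
  xMon {p | p ∈ I}

/-- `K[C(P)]`: `w_I = x(max I)`. -/
noncomputable def wC {P : Type} [PartialOrder P] [Finite P] (I : LowerSet P) : P →₀ ℕ :=
  xMon {p | p ∈ I ∧ ∀ q ∈ I, p ≤ q → p = q}

/-- `K[C(P*)]`: `w_I = x(min (P ∖ I))`. -/
noncomputable def wCdual {P : Type} [PartialOrder P] [Finite P] (I : LowerSet P) : P →₀ ℕ :=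
  xMon {p | p ∉ I ∧ ∀ q, q ∉ I → q ≤ p → q = p}

section basic

variable {K : Type*} [Field K] {P σ : Type} [PartialOrder P]

theorem phi_eq (w : LowerSet P → (σ →₀ ℕ)) (I : LowerSet P) :
    phi K w I = monomial ((w I).mapDomain some + Finsupp.single none 1) 1 := by
  rw [phi, rename_monomial, X, monomial_mul, one_mul]

theorem mapDomain_inj {a b : σ →₀ ℕ} {i j : ℕ}
    (h : a.mapDomain some + Finsupp.single none i = b.mapDomain some + Finsupp.single none j) :
    a = b ∧ i = j := by
  have h1 : ∀ (c : σ →₀ ℕ) (k : ℕ) (s : σ),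
      (c.mapDomain some + Finsupp.single none k : Option σ →₀ ℕ) (some s) = c s := by
    intro c k s
    rw [Finsupp.add_apply, Finsupp.mapDomain_apply (Option.some_injective σ),
      Finsupp.single_eq_of_ne (by simp), add_zero]
  have h2 : ∀ (c : σ →₀ ℕ) (k : ℕ),
      (c.mapDomain some + Finsupp.single none k : Option σ →₀ ℕ) none = k := by
    intro c k
    rw [Finsupp.add_apply, Finsupp.mapDomain_of_notMem_range, Finsupp.single_eq_same, zero_add]
    simp
  constructor
  · ext s
    rw [← h1 a i s, h, h1]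
  · rw [← h2 a i, h, h2]

theorem phi_inj (w : LowerSet P → (σ →₀ ℕ)) (I J : LowerSet P) :
    phi K w I = phi K w J ↔ w I = w J := by
  rw [phi_eq, phi_eq]
  constructor
  · intro h
    exact (mapDomain_inj ((monomial_left_injective (one_ne_zero : (1 : K) ≠ 0)) h)).1
  · intro h
    rw [h]

theorem phi_mul (w : LowerSet P → (σ →₀ ℕ)) (I I' : LowerSet P) :
    phi K w I * phi K w I' =
      monomial ((w I + w I').mapDomain some + Finsupp.single none 2) 1 := by
  rw [phi_eq, phi_eq, monomial_mul, one_mul, Finsupp.mapDomain_add]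
  congr 1
  rw [show (2 : ℕ) = 1 + 1 from rfl, Finsupp.single_add, add_add_add_comm]

theorem phi_mul_eq (w : LowerSet P → (σ →₀ ℕ)) (I I' J J' : LowerSet P) :
    phi K w I * phi K w I' = phi K w J * phi K w J' ↔ w I + w I' = w J + w J' := by
  rw [phi_mul, phi_mul]
  constructor
  · intro h
    exact (mapDomain_inj ((monomial_left_injective (one_ne_zero : (1 : K) ≠ 0)) h)).1
  · intro h
    rw [h]

theorem pair_eq {L : Type} [PartialOrder L] {a b c d : L} (h1 : a ≤ b) (h2 : c ≤ d)
    (h : ({a, b} : Multiset L) = {c, d}) : a = c ∧ b = d := by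
  have h3 : a = c ∧ b = d ∨ a = d ∧ b = c := by
    have ha : a ∈ ({c, d} : Multiset L) := by rw [← h]; simp
    have hb : b ∈ ({c, d} : Multiset L) := by rw [← h]; simp
    have hc : c ∈ ({a, b} : Multiset L) := by rw [h]; simp
    have hd : d ∈ ({a, b} : Multiset L) := by rw [h]; simp
    simp only [Multiset.insert_eq_cons, Multiset.mem_cons, Multiset.mem_singleton] at ha hb hc hd
    rcases ha with rfl | rfl <;> rcases hb with rfl | rfl <;> simp_all
  rcases h3 with h3 | ⟨h3, h4⟩
  · exact h3
  · subst h3 h4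
    exact ⟨le_antisymm h1 h2, le_antisymm h2 h1⟩

theorem isStd_pair {L : Type} [PartialOrder L] {a b : L} (h : a ≤ b) :
    IsStd ({a, b} : Multiset L) := by
  intro c hc d hd
  simp only [Multiset.insert_eq_cons, Multiset.mem_cons, Multiset.mem_singleton] at hc hd
  rcases hc with rfl | rfl <;> rcases hd with rfl | rfl <;> simp [h]

theorem good (w : LowerSet P → (σ →₀ ℕ)) (h : IsCompatibleASL K w) :
    Pool.Agent.ZH16.ASL.Good w where
  inj a b hab := h.asl.inj ((phi_inj w a b).2 hab)
  two a b c d hab hcd he := by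
    have h1 := (phi_mul_eq (K := K) w a b c d).2 he
    have h2 : stdMon K w ⟨{a, b}, isStd_pair hab⟩ = stdMon K w ⟨{c, d}, isStd_pair hcd⟩ := by
      simp only [stdMon, Multiset.insert_eq_cons, Multiset.map_cons, Multiset.map_singleton,
        Multiset.prod_cons, Multiset.prod_singleton]
      exact h1
    have h3 := h.asl.indep.injective h2
    exact pair_eq hab hcd (congrArg Subtype.val h3)
  rel x y hxy hyx := by
    obtain ⟨J, J', h1, h2, h3⟩ := h.compat x y hxy hyx
    exact ⟨J, J', h1, h2, (phi_mul_eq (K := K) w x y J J').1 h3⟩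

end basic

section three

variable {P : Type} [PartialOrder P] [Finite P]

omit [PartialOrder P] in
open Classical in
theorem xMon_apply (W : Set P) (p : P) : xMon W p = if p ∈ W then 1 else 0 := by
  rw [xMon, Finsupp.equivFunOnFinite_symm_apply_apply, Set.indicator_apply]
  rfl

theorem wO_eq (I I' J J' : LowerSet P) (hJ : J ≤ J') :
    wO I + wO I' = wO J + wO J' ↔ (J = I ⊓ I' ∧ J' = I ⊔ I') := by
  classical
  constructor
  · intro h
    have h1 : ∀ p, ((if p ∈ I then 1 else 0) + (if p ∈ I' then 1 else 0) : ℕ) =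
        (if p ∈ J then 1 else 0) + (if p ∈ J' then 1 else 0) := by
      intro p
      have := DFunLike.congr_fun h p
      simpa only [Finsupp.add_apply, wO, xMon_apply, Set.mem_ofPred_eq] using this
    constructor
    · ext p
      have h2 := h1 p
      have h3 : p ∈ J → p ∈ J' := fun h => hJ h
      simp only [SetLike.mem_coe, LowerSet.mem_inf_iff]
      by_cases a1 : p ∈ I <;> by_cases a2 : p ∈ I' <;> by_cases a3 : p ∈ J <;>
        by_cases a4 : p ∈ J' <;> simp_all
    · ext p
      have h2 := h1 p
      have h3 : p ∈ J → p ∈ J' := fun h => hJ h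
      simp only [SetLike.mem_coe, LowerSet.mem_sup_iff]
      by_cases a1 : p ∈ I <;> by_cases a2 : p ∈ I' <;> by_cases a3 : p ∈ J <;>
        by_cases a4 : p ∈ J' <;> simp_all
  · rintro ⟨rfl, rfl⟩
    ext p
    simp only [Finsupp.add_apply, wO, xMon_apply, Set.mem_ofPred_eq, LowerSet.mem_inf_iff,
      LowerSet.mem_sup_iff]
    by_cases a1 : p ∈ I <;> by_cases a2 : p ∈ I' <;> simp_all

end three

section chains

variable {P : Type}

/-- `p` is a maximal element of `A` for the relation `r`. -/
def IsTop (r : P → P → Prop) (A : Set P) (p : P) : Prop := p ∈ A ∧ ∀ q ∈ A, r p q → p = q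

open Classical in
/-- indicator of the maximal elements -/
noncomputable def tp (r : P → P → Prop) (A : Set P) (p : P) : ℕ := if IsTop r A p then 1 else 0

theorem tp_pos {r : P → P → Prop} {A : Set P} {p : P} : 1 ≤ tp r A p ↔ IsTop r A p := by
  classical
  unfold tp
  split_ifs with h <;> simp [h]

theorem tp_le {r : P → P → Prop} {A : Set P} {p : P} : tp r A p ≤ 1 := by
  classical
  unfold tp
  split_ifs <;> simp

theorem tp_congr {r : P → P → Prop} {A B : Set P} {p : P} (h : IsTop r A p ↔ IsTop r B p) :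
    tp r A p = tp r B p := by
  classical
  unfold tp
  simp only [h]

theorem chain_tops (r : P → P → Prop) {ι : Type} (c : P → ι) (hc1 : ∀ p q, r p q → c p = c q)
    (hc2 : ∀ p q, c p = c q → r p q ∨ r q p) (A A' B B' : Set P)
    (dA : ∀ p q, r q p → p ∈ A → q ∈ A) (dA' : ∀ p q, r q p → p ∈ A' → q ∈ A')
    (dB : ∀ p q, r q p → p ∈ B → q ∈ B) (dB' : ∀ p q, r q p → p ∈ B' → q ∈ B')
    (eA : ∀ p ∈ A, ∃ q, r p q ∧ IsTop r A q) (eA' : ∀ p ∈ A', ∃ q, r p q ∧ IsTop r A' q)
    (eB : ∀ p ∈ B, ∃ q, r p q ∧ IsTop r B q) (eB' : ∀ p ∈ B', ∃ q, r p q ∧ IsTop r B' q)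
    (hB : B ⊆ B') :
    (∀ p, tp r A p + tp r A' p = tp r B p + tp r B' p) ↔ (B = A ∩ A' ∧ B' = A ∪ A') := by
  -- two tops of the same set on the same chain agree
  have huniq : ∀ (S : Set P) (u v : P), c u = c v → IsTop r S u → IsTop r S v → u = v := by
    intro S u v huv hu hv
    rcases hc2 u v huv with h | h
    · exact hu.2 v hv.1 h
    · exact (hv.2 u hu.1 h).symm
  constructor
  · intro h
    have f1 : ∀ p, IsTop r B p ∨ IsTop r B' p → IsTop r A p ∨ IsTop r A' p := by
      intro p hp
      have h1 := h p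
      by_contra hcon
      push Not at hcon
      have h2 : ¬ 1 ≤ tp r A p := fun h => hcon.1 (tp_pos.1 h)
      have h3 : ¬ 1 ≤ tp r A' p := fun h => hcon.2 (tp_pos.1 h)
      rcases hp with hp | hp
      · have := tp_pos.2 hp
        omega
      · have := tp_pos.2 hp
        omega
    have f2 : ∀ p, IsTop r A p ∨ IsTop r A' p → IsTop r B p ∨ IsTop r B' p := by
      intro p hp
      have h1 := h p
      by_contra hcon
      push Not at hcon
      have h2 : ¬ 1 ≤ tp r B p := fun h => hcon.1 (tp_pos.1 h)
      have h3 : ¬ 1 ≤ tp r B' p := fun h => hcon.2 (tp_pos.1 h)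
      rcases hp with hp | hp
      · have := tp_pos.2 hp
        omega
      · have := tp_pos.2 hp
        omega
    have f3 : ∀ p, IsTop r B p → IsTop r B' p → IsTop r A p ∧ IsTop r A' p := by
      intro p hp hp'
      have h1 := h p
      have h2 := tp_pos.2 hp
      have h3 := tp_pos.2 hp'
      have h4 : tp r A p ≤ 1 := tp_le
      have h5 : tp r A' p ≤ 1 := tp_le
      exact ⟨tp_pos.1 (by omega), tp_pos.1 (by omega)⟩
    have f4 : ∀ p, IsTop r A p → IsTop r A' p → IsTop r B p ∧ IsTop r B' p := by
      intro p hp hp'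
      have h1 := h p
      have h2 := tp_pos.2 hp
      have h3 := tp_pos.2 hp'
      have h4 : tp r B p ≤ 1 := tp_le
      have h5 : tp r B' p ≤ 1 := tp_le
      exact ⟨tp_pos.1 (by omega), tp_pos.1 (by omega)⟩
    have g2 : B' = A ∪ A' := by
      ext p
      constructor
      · intro hp
        obtain ⟨q, hpq, hq⟩ := eB' p hp
        rcases f1 q (Or.inr hq) with h3 | h3
        · exact Or.inl (dA q p hpq h3.1)
        · exact Or.inr (dA' q p hpq h3.1)
      · rintro (hp | hp)
        · obtain ⟨q, hpq, hq⟩ := eA p hp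
          rcases f2 q (Or.inl hq) with h3 | h3
          · exact dB' q p hpq (hB h3.1)
          · exact dB' q p hpq h3.1
        · obtain ⟨q, hpq, hq⟩ := eA' p hp
          rcases f2 q (Or.inr hq) with h3 | h3
          · exact dB' q p hpq (hB h3.1)
          · exact dB' q p hpq h3.1
    refine ⟨?_, g2⟩
    ext p
    constructor
    · intro hp
      obtain ⟨q, hpq, hq⟩ := eB p hp
      obtain ⟨q', hpq', hq'⟩ := eB' p (hB hp)
      have hcq : c q = c q' := (hc1 p q hpq).symm.trans (hc1 p q' hpq')
      by_cases hqq : q = q'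
      · subst hqq
        obtain ⟨h3, h4⟩ := f3 q hq hq'
        exact ⟨dA q p hpq h3.1, dA' q p hpq h4.1⟩
      · rcases f1 q (Or.inl hq) with h3 | h3 <;> rcases f1 q' (Or.inr hq') with h4 | h4
        · exact absurd (huniq A q q' hcq h3 h4) hqq
        · exact ⟨dA q p hpq h3.1, dA' q' p hpq' h4.1⟩
        · exact ⟨dA q' p hpq' h4.1, dA' q p hpq h3.1⟩
        · exact absurd (huniq A' q q' hcq h3 h4) hqq
    · rintro ⟨hp, hp'⟩
      obtain ⟨q, hpq, hq⟩ := eA p hp
      obtain ⟨q', hpq', hq'⟩ := eA' p hp'
      have hcq : c q = c q' := (hc1 p q hpq).symm.trans (hc1 p q' hpq')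
      by_cases hqq : q = q'
      · subst hqq
        exact dB q p hpq (f4 q hq hq').1.1
      · rcases f2 q (Or.inl hq) with h3 | h3
        · exact dB q p hpq h3.1
        rcases f2 q' (Or.inr hq') with h4 | h4
        · exact dB q' p hpq' h4.1
        · exact absurd (huniq B' q q' hcq h3 h4) hqq
  · rintro ⟨rfl, rfl⟩ p
    by_cases h : ∀ u ∈ A, c u = c p → u ∈ A'
    · have h1 : tp r (A ∩ A') p = tp r A p := by
        apply tp_congr
        constructor
        · rintro ⟨h1, h2⟩
          exact ⟨h1.1, fun q hq hpq => h2 q ⟨hq, h q hq (hc1 p q hpq).symm⟩ hpq⟩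
        · rintro ⟨h1, h2⟩
          exact ⟨⟨h1, h p h1 rfl⟩, fun q hq hpq => h2 q hq.1 hpq⟩
      have h2 : tp r (A ∪ A') p = tp r A' p := by
        apply tp_congr
        constructor
        · rintro ⟨h1, h2⟩
          refine ⟨?_, fun q hq hpq => h2 q (Or.inr hq) hpq⟩
          rcases h1 with h1 | h1
          · exact h p h1 rfl
          · exact h1
        · rintro ⟨h1, h2⟩
          refine ⟨Or.inr h1, ?_⟩
          rintro q (hq | hq) hpq
          · exact h2 q (h q hq (hc1 p q hpq).symm) hpq
          · exact h2 q hq hpq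
      rw [h1, h2]
    · push Not at h
      obtain ⟨u, huA, hup, huA'⟩ := h
      have h' : ∀ v ∈ A', c v = c p → v ∈ A := by
        intro v hv hvp
        rcases hc2 u v (hup.trans hvp.symm) with h3 | h3
        · exact absurd (dA' v u h3 hv) huA'
        · exact dA u v h3 huA
      have h1 : tp r (A ∩ A') p = tp r A' p := by
        apply tp_congr
        constructor
        · rintro ⟨h1, h2⟩
          exact ⟨h1.2, fun q hq hpq => h2 q ⟨h' q hq (hc1 p q hpq).symm, hq⟩ hpq⟩
        · rintro ⟨h1, h2⟩
          exact ⟨⟨h' p h1 rfl, h1⟩, fun q hq hpq => h2 q hq.2 hpq⟩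
      have h2 : tp r (A ∪ A') p = tp r A p := by
        apply tp_congr
        constructor
        · rintro ⟨h1, h2⟩
          refine ⟨?_, fun q hq hpq => h2 q (Or.inl hq) hpq⟩
          rcases h1 with h1 | h1
          · exact h1
          · exact h' p h1 rfl
        · rintro ⟨h1, h2⟩
          refine ⟨Or.inl h1, ?_⟩
          rintro q (hq | hq) hpq
          · exact h2 q hq hpq
          · exact h2 q (h' q hq (hc1 p q hpq).symm) hpq
      rw [h1, h2, add_comm]

end chains

section three

variable {P : Type} [PartialOrder P] [Finite P]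

theorem wC_eq (hP : Pool.Agent.ZH16.ASL.IsUnionOfChains P) (I I' J J' : LowerSet P)
    (hJ : J ≤ J') : wC I + wC I' = wC J + wC J' ↔ (J = I ⊓ I' ∧ J' = I ⊔ I') := by
  classical
  obtain ⟨ι, c, hc1, hc2⟩ := hP
  have hex : ∀ I : LowerSet P, ∀ p ∈ (I : Set P), ∃ q, p ≤ q ∧ IsTop (· ≤ ·) (I : Set P) q := by
    intro I p hp
    obtain ⟨q, hpq, hq⟩ := (Set.toFinite (I : Set P)).exists_le_maximal hp
    exact ⟨q, hpq, hq.1, fun r hr hqr => le_antisymm hqr (hq.2 hr hqr)⟩
  have h := chain_tops (· ≤ ·) c hc1 hc2 (I : Set P) I' J J' (fun p q h hp => I.lower h hp)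
    (fun p q h hp => I'.lower h hp) (fun p q h hp => J.lower h hp)
    (fun p q h hp => J'.lower h hp) (hex I) (hex I') (hex J) (hex J') hJ
  have hval : ∀ (I : LowerSet P) (p : P), wC I p = tp (· ≤ ·) (I : Set P) p := by
    intro I p
    rw [wC, xMon_apply, tp]
    rfl
  have h1 : wC I + wC I' = wC J + wC J' ↔ ∀ p, tp (· ≤ ·) (I : Set P) p +
      tp (· ≤ ·) (I' : Set P) p = tp (· ≤ ·) (J : Set P) p + tp (· ≤ ·) (J' : Set P) p := by
    rw [DFunLike.ext_iff]
    simp only [Finsupp.add_apply, hval]
  rw [h1, h]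
  constructor
  · rintro ⟨h2, h3⟩
    exact ⟨SetLike.coe_injective h2, SetLike.coe_injective h3⟩
  · rintro ⟨rfl, rfl⟩
    exact ⟨rfl, rfl⟩

theorem wCdual_eq (hP : Pool.Agent.ZH16.ASL.IsUnionOfChains P) (I I' J J' : LowerSet P)
    (hJ : J ≤ J') : wCdual I + wCdual I' = wCdual J + wCdual J' ↔ (J = I ⊓ I' ∧ J' = I ⊔ I') := by
  classical
  obtain ⟨ι, c, hc1, hc2⟩ := hP
  have hex : ∀ I : LowerSet P, ∀ p ∈ ((I : Set P)ᶜ), ∃ q, q ≤ p ∧
      IsTop (fun a b => b ≤ a) ((I : Set P)ᶜ) q := by
    intro I p hp
    obtain ⟨q, hpq, hq⟩ := Set.Finite.exists_le_minimal (Set.toFinite ((I : Set P)ᶜ)) hp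
    exact ⟨q, hpq, hq.1, fun r hr hqr => le_antisymm (hq.2 hr hqr) hqr⟩
  have hd : ∀ I : LowerSet P, ∀ p q : P, p ≤ q → p ∈ ((I : Set P)ᶜ) → q ∈ ((I : Set P)ᶜ) :=
    fun I p q h hp hq => hp (I.lower h hq)
  have h := chain_tops (fun a b : P => b ≤ a) c (fun p q h => (hc1 q p h).symm)
    (fun p q h => (hc2 p q h).symm) ((I : Set P)ᶜ) ((I' : Set P)ᶜ) ((J' : Set P)ᶜ)
    ((J : Set P)ᶜ) (hd I) (hd I') (hd J') (hd J) (hex I) (hex I') (hex J') (hex J)
    (Set.compl_subset_compl.2 hJ)
  have hval : ∀ (I : LowerSet P) (p : P),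
      wCdual I p = tp (fun a b => b ≤ a) ((I : Set P)ᶜ) p := by
    intro I p
    rw [wCdual, xMon_apply, tp]
    split_ifs with h1 h2 h2
    · rfl
    · exact absurd ⟨h1.1, fun q hq hqp => (h1.2 q hq hqp).symm⟩ h2
    · exact absurd ⟨h2.1, fun q hq hqp => (h2.2 q hq hqp).symm⟩ h1
    · rfl
  have h1 : wCdual I + wCdual I' = wCdual J + wCdual J' ↔
      ∀ p, tp (fun a b => b ≤ a) ((I : Set P)ᶜ) p + tp (fun a b => b ≤ a) ((I' : Set P)ᶜ) p =
        tp (fun a b => b ≤ a) ((J' : Set P)ᶜ) p + tp (fun a b => b ≤ a) ((J : Set P)ᶜ) p := by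
    rw [DFunLike.ext_iff]
    simp only [Finsupp.add_apply, hval]
    apply forall_congr'
    intro p
    rw [add_comm (tp (fun a b => b ≤ a) ((J' : Set P)ᶜ) p)]
  rw [h1, h]
  constructor
  · rintro ⟨h2, h3⟩
    refine ⟨SetLike.coe_injective ?_, SetLike.coe_injective ?_⟩
    · have := congrArg compl h3
      rw [compl_compl, Set.compl_union, compl_compl, compl_compl] at this
      exact this
    · have := congrArg compl h2
      rw [compl_compl, Set.compl_inter, compl_compl, compl_compl] at this
      exact this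
  · rintro ⟨rfl, rfl⟩
    constructor
    · rw [LowerSet.coe_sup, Set.compl_union]
    · rw [LowerSet.coe_inf, Set.compl_inter]

end three

section hibi

variable {K : Type*} [Field K] {P σ : Type} [PartialOrder P]

theorem prod_phi (w : LowerSet P → (σ →₀ ℕ)) (m : Multiset (LowerSet P)) :
    (m.map (phi K w)).prod =
      monomial (((m.map w).sum).mapDomain some + Finsupp.single none m.card) 1 := by
  induction m using Multiset.induction_on with
  | empty => simp
  | cons a m ih =>
    rw [Multiset.map_cons, Multiset.prod_cons, ih, phi_eq, monomial_mul, one_mul,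
      Multiset.map_cons, Multiset.sum_cons, Multiset.card_cons, Finsupp.mapDomain_add,
      add_comm m.card 1, Finsupp.single_add, add_add_add_comm]

variable [Finite P]

open Classical in
theorem sum_wO (m : Multiset (LowerSet P)) (p : P) :
    (m.map wO).sum p = m.countP (fun I => p ∈ I) := by
  induction m using Multiset.induction_on with
  | empty => simp
  | cons a m ih =>
    rw [Multiset.map_cons, Multiset.sum_cons, Finsupp.add_apply, ih, Multiset.countP_cons, wO,
      xMon_apply, add_comm]
    rfl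

omit [Finite P] in
theorem exists_top (m : Multiset (LowerSet P)) (hm : IsStd m) (h0 : m ≠ 0) :
    ∃ M ∈ m, ∀ I ∈ m, I ≤ M := by
  classical
  obtain ⟨a, ha⟩ := Multiset.exists_mem_of_ne_zero h0
  obtain ⟨M, -, hM⟩ := m.toFinset.exists_le_maximal (Multiset.mem_toFinset.2 ha)
  refine ⟨M, Multiset.mem_toFinset.1 hM.1, fun I hI => ?_⟩
  rcases hm I hI M (Multiset.mem_toFinset.1 hM.1) with h | h
  · exact h
  · exact hM.2 (Multiset.mem_toFinset.2 hI) h

theorem mem_top (m : Multiset (LowerSet P)) (M : LowerSet P) (hM : M ∈ m)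
    (hM' : ∀ I ∈ m, I ≤ M) (p : P) : p ∈ M ↔ 0 < (m.map wO).sum p := by
  classical
  rw [sum_wO, Multiset.countP_pos]
  constructor
  · intro h
    exact ⟨M, hM, h⟩
  · rintro ⟨I, hI, hp⟩
    exact hM' I hI hp

theorem std_inj : ∀ (n : ℕ) (m m' : Multiset (LowerSet P)), m.card = n → m'.card = n →
    IsStd m → IsStd m' → (m.map wO).sum = (m'.map wO).sum → m = m' := by
  classical
  intro n
  induction n with
  | zero =>
    intro m m' h1 h2 _ _ _
    rw [Multiset.card_eq_zero.1 h1, Multiset.card_eq_zero.1 h2]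
  | succ n ih =>
    intro m m' h1 h2 h3 h4 h5
    obtain ⟨M, hM, hM'⟩ := exists_top m h3 (by rintro rfl; simp at h1)
    obtain ⟨N, hN, hN'⟩ := exists_top m' h4 (by rintro rfl; simp at h2)
    have hMN : M = N := by
      ext p
      rw [SetLike.mem_coe, SetLike.mem_coe, mem_top m M hM hM', mem_top m' N hN hN', h5]
    subst hMN
    obtain ⟨k, rfl⟩ := Multiset.exists_cons_of_mem hM
    obtain ⟨k', rfl⟩ := Multiset.exists_cons_of_mem hN
    rw [Multiset.card_cons] at h1 h2
    rw [Multiset.map_cons, Multiset.map_cons, Multiset.sum_cons, Multiset.sum_cons] at h5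
    rw [ih k k' (by omega) (by omega)
      (fun a ha b hb => h3 a (Multiset.mem_cons_of_mem ha) b (Multiset.mem_cons_of_mem hb))
      (fun a ha b hb => h4 a (Multiset.mem_cons_of_mem ha) b (Multiset.mem_cons_of_mem hb))
      (add_left_cancel h5)]

open Classical in
/-- level sets of a multiset of poset ideals -/
noncomputable def level (m : Multiset (LowerSet P)) (i : ℕ) : LowerSet P where
  carrier := {p | i < m.countP (fun I => p ∈ I)}
  lower' := by
    intro a b hba ha
    rw [Set.mem_ofPred_eq] at ha ⊢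
    refine lt_of_lt_of_le ha ?_
    rw [Multiset.countP_eq_card_filter, Multiset.countP_eq_card_filter]
    exact Multiset.card_le_card (Multiset.monotone_filter_right m (fun I h => I.lower hba h))

omit [Finite P] in
theorem level_anti (m : Multiset (LowerSet P)) {i j : ℕ} (h : i ≤ j) : level m j ≤ level m i :=
  fun _ hp => lt_of_le_of_lt h hp

/-- the standard form of a multiset of poset ideals -/
noncomputable def stdForm (m : Multiset (LowerSet P)) : Multiset (LowerSet P) :=
  (Multiset.range m.card).map (level m)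

omit [Finite P] in
theorem stdForm_isStd (m : Multiset (LowerSet P)) : IsStd (stdForm m) := by
  intro a ha b hb
  obtain ⟨i, -, rfl⟩ := Multiset.mem_map.1 ha
  obtain ⟨j, -, rfl⟩ := Multiset.mem_map.1 hb
  rcases le_total i j with h | h
  · exact Or.inr (level_anti m h)
  · exact Or.inl (level_anti m h)

omit [Finite P] in
theorem stdForm_card (m : Multiset (LowerSet P)) : (stdForm m).card = m.card := by
  rw [stdForm, Multiset.card_map, Multiset.card_range]

theorem stdForm_sum (m : Multiset (LowerSet P)) :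
    ((stdForm m).map wO).sum = (m.map wO).sum := by
  classical
  ext p
  rw [sum_wO, sum_wO, stdForm, Multiset.countP_map]
  have h1 : m.countP (fun I => p ∈ I) ≤ m.card := Multiset.countP_le_card _ _
  have h2 : (Finset.range m.card).filter (fun i => p ∈ level m i) =
      Finset.range (m.countP (fun I => p ∈ I)) := by
    ext i
    rw [Finset.mem_filter, Finset.mem_range, Finset.mem_range]
    constructor
    · rintro ⟨-, h⟩
      exact h
    · intro h
      exact ⟨lt_of_lt_of_le h h1, h⟩
  have h3 := congrArg Finset.card h2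
  rw [Finset.card_range] at h3
  exact h3

theorem compat_wO : IsCompatibleASL K (wO : LowerSet P → (P →₀ ℕ)) where
  asl :=
    { inj := by
        classical
        intro a b h
        rw [phi_inj] at h
        ext p
        have := DFunLike.congr_fun h p
        rw [wO, wO, xMon_apply, xMon_apply] at this
        rw [SetLike.mem_coe, SetLike.mem_coe]
        by_cases h1 : p ∈ a <;> by_cases h2 : p ∈ b <;> simp_all
      indep := by
        have h1 : stdMon K (wO : LowerSet P → (P →₀ ℕ)) =
            (MvPolynomial.basisMonomials (Option P) K) ∘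
              (fun m : {m : Multiset (LowerSet P) // IsStd m} =>
                (((m.1.map wO).sum).mapDomain some + Finsupp.single none m.1.card)) := by
          funext m
          rw [Function.comp_apply, coe_basisMonomials, stdMon, prod_phi]
        rw [h1]
        apply (MvPolynomial.basisMonomials (Option P) K).linearIndependent.comp
        rintro ⟨m, hm⟩ ⟨m', hm'⟩ h
        obtain ⟨h2, h3⟩ := mapDomain_inj h
        exact Subtype.ext (std_inj _ m m' rfl h3.symm hm hm' h2)
      span := by
        intro r hr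
        have h1 : r ∈ Subalgebra.toSubmodule (Algebra.adjoin K
            (Set.range (phi K (wO : LowerSet P → (P →₀ ℕ))))) := hr
        rw [Algebra.adjoin_eq_span] at h1
        refine Submodule.span_le.2 ?_ h1
        intro x hx
        have h2 : ∃ m : Multiset (LowerSet P), x = (m.map (phi K wO)).prod := by
          induction hx using Submonoid.closure_induction with
          | mem x hx =>
            obtain ⟨I, rfl⟩ := hx
            exact ⟨{I}, by simp⟩
          | one => exact ⟨0, by simp⟩
          | mul x y _ _ h1 h2 =>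
            obtain ⟨m, rfl⟩ := h1
            obtain ⟨m', rfl⟩ := h2
            exact ⟨m + m', by rw [Multiset.map_add, Multiset.prod_add]⟩
        obtain ⟨m, rfl⟩ := h2
        apply Submodule.subset_span
        refine ⟨⟨stdForm m, stdForm_isStd m⟩, ?_⟩
        rw [stdMon, prod_phi, prod_phi, stdForm_sum, stdForm_card]
      straight := by
        intro I I' _ _
        have h1 : I ⊓ I' ≤ I ⊔ I' := inf_le_left.trans le_sup_left
        refine ⟨Finsupp.single ⟨{I ⊓ I', I ⊔ I'}, isStd_pair h1⟩ 1, ?_, ?_⟩
        · rw [Finsupp.sum_single_index (by simp), one_smul, stdMon]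
          simp only [Multiset.insert_eq_cons, Multiset.map_cons, Multiset.map_singleton,
            Multiset.prod_cons, Multiset.prod_singleton]
          rw [phi_mul_eq, wO_eq _ _ _ _ h1]
          exact ⟨rfl, rfl⟩
        · intro m hm
          have h2 := Finsupp.support_single_subset hm
          rw [Finset.mem_singleton] at h2
          subst h2
          refine ⟨I ⊓ I', by simp, ?_, inf_le_left, inf_le_right⟩
          intro d hd
          simp only [Multiset.insert_eq_cons, Multiset.mem_cons, Multiset.mem_singleton] at hd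
          rcases hd with rfl | rfl
          · exact le_rfl
          · exact h1 }
  compat := by
    intro I I' _ _
    refine ⟨I ⊓ I', I ⊔ I', le_rfl, le_rfl, ?_⟩
    rw [phi_mul_eq, wO_eq _ _ _ _ (inf_le_left.trans le_sup_left)]
    exact ⟨rfl, rfl⟩

end hibi

/-- **MP_9c3df6_al, Q1, answered affirmatively.**  Let the finite poset `P` be a disjoint union of
chains.  Every compatible ASL on the lattice of poset ideals of `P` over a field `K` has the same
straightening relations as `K[O(P)]`, as `K[C(P)]` and as `K[C(P*)]`; and `K[O(P)]` is a compatible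
ASL.  So there is exactly one compatible ASL on this lattice. -/
theorem result (K : Type*) [Field K] (P : Type) [PartialOrder P] [Finite P]
    (hP : ∃ (ι : Type) (c : P → ι), (∀ p q : P, p ≤ q → c p = c q) ∧
      ∀ p q : P, c p = c q → p ≤ q ∨ q ≤ p) :
    IsCompatibleASL K (wO : LowerSet P → (P →₀ ℕ)) ∧
    ∀ (σ : Type) (w : LowerSet P → (σ →₀ ℕ)), IsCompatibleASL K w →
      Identified K w (wO : LowerSet P → (P →₀ ℕ)) ∧
      Identified K w (wC : LowerSet P → (P →₀ ℕ)) ∧
      Identified K w (wCdual : LowerSet P → (P →₀ ℕ)) := by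
  refine ⟨compat_wO, fun σ w hw => ?_⟩
  have key : ∀ I I' : LowerSet P, ¬ I ≤ I' → ¬ I' ≤ I → ∀ J J' : LowerSet P, J ≤ J' →
      (phi K w I * phi K w I' = phi K w J * phi K w J' ↔ (J = I ⊓ I' ∧ J' = I ⊔ I')) := by
    intro I I' h1 h2 J J' hJ
    obtain ⟨p, q, hp, hq, hrel⟩ := (good w hw).rel I I' h1 h2
    obtain ⟨h3, h4⟩ := Pool.Agent.ZH16.ASL.main hP w (good w hw) I I' p q hp hq hrel
    rw [phi_mul_eq]
    constructor
    · intro h
      rw [hrel] at h
      obtain ⟨h5, h6⟩ := (good w hw).two p q J J'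
        (hp.trans (inf_le_left.trans (le_sup_left.trans hq))) hJ h
      exact ⟨h5.symm.trans h3, h6.symm.trans h4⟩
    · rintro ⟨rfl, rfl⟩
      rw [hrel, h3, h4]
  refine ⟨?_, ?_, ?_⟩
  · intro I I' h1 h2 J J' hJ
    rw [key I I' h1 h2 J J' hJ, phi_mul_eq, wO_eq I I' J J' hJ]
  · intro I I' h1 h2 J J' hJ
    rw [key I I' h1 h2 J J' hJ, phi_mul_eq, wC_eq hP I I' J J' hJ]
  · intro I I' h1 h2 J J' hJ
    rw [key I I' h1 h2 J J' hJ, phi_mul_eq, wCdual_eq hP I I' J J' hJ]

end Pool.Agent.H16U.UniqueForChains
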